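import Pool.Agent.TH336.KR.Lag
import Pool.Agent.TH635.J355

/-!
# The classification
-/

set_option autoImplicit false
open MeasureTheory Polynomial Filter Topology

namespace Pool.Agent.TH336.KR

variable {Φ : ℝ[X] →ₗ[ℝ] ℝ} {A B K E : ℝ[X]}

theorem nd_der {P : ℝ[X]} {n : ℕ} (h : P.natDegree ≤ n + 1) : (derivative P).natDegree ≤ n :=
  (natDegree_derivative_le P).trans (by omega)

/-- If `A` has degree at most three, then the cubic coefficient of `B` vanishes. -/
theorem Sys.b3 (h : Sys Φ A B K E) (hA : A.natDegree ≤ 3) : B.coeff 3 = 0 := by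
  have hst := h.star
  have hB := h.dB
  have hK := h.dK
  have hE := h.dE
  have hA' : (derivative A).natDegree ≤ 2 := nd_der hA
  have hB' : (derivative B).natDegree ≤ 2 := nd_der hB
  have n1 : (derivative B - K).natDegree ≤ 2 := (natDegree_sub_le _ _).trans (max_le hB' hK)
  have n2 : (B - derivative A).natDegree ≤ 3 :=
    (natDegree_sub_le _ _).trans (max_le hB (by omega))
  have n3 : (A * (derivative B - K)).natDegree ≤ 5 :=
    natDegree_mul_le.trans (by omega)
  have n4 : (B * (B - derivative A)).natDegree ≤ 6 :=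
    natDegree_mul_le.trans (by omega)
  have n5 : (HH A B K).natDegree ≤ 6 :=
    (natDegree_add_le _ _).trans (max_le (by omega) n4)
  have n6 : (derivative (HH A B K)).natDegree ≤ 5 := nd_der n5
  have n7 : (A * derivative (HH A B K)).natDegree ≤ 8 := natDegree_mul_le.trans (by omega)
  have n8 : (2 * derivative A).natDegree ≤ 2 := by
    rw [show (2 : ℝ[X]) = C 2 from (map_ofNat C 2).symm]
    exact (natDegree_C_mul_le _ _).trans hA'
  have n9 : (B - 2 * derivative A).natDegree ≤ 3 :=
    (natDegree_sub_le _ _).trans (max_le hB (by omega))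
  have n10 : (A ^ 2 * E).natDegree ≤ 7 := by
    refine natDegree_mul_le.trans ?_
    have := natDegree_pow_le_of_le 2 hA
    omega
  have c1 : (HH A B K).coeff 6 = B.coeff 3 * B.coeff 3 := by
    rw [HH, coeff_add, coeff_eq_zero_of_natDegree_lt (p := A * (derivative B - K)) (by omega),
      zero_add, show (6 : ℕ) = 3 + 3 from rfl, coeff_mul_add_eq_of_natDegree_le hB n2, coeff_sub,
      coeff_eq_zero_of_natDegree_lt (p := derivative A) (by omega), sub_zero]
  have c2 : (HH A B K * (B - 2 * derivative A)).coeff 9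
      = B.coeff 3 * B.coeff 3 * B.coeff 3 := by
    rw [show (9 : ℕ) = 6 + 3 from rfl, coeff_mul_add_eq_of_natDegree_le n5 n9, c1, coeff_sub,
      coeff_eq_zero_of_natDegree_lt (p := 2 * derivative A) (by omega), sub_zero]
  have c3 := congrArg (fun p => coeff p 9) hst
  simp only [coeff_add, coeff_zero] at c3
  rw [coeff_eq_zero_of_natDegree_lt (p := A * derivative (HH A B K)) (by omega), c2,
    coeff_eq_zero_of_natDegree_lt (p := A ^ 2 * E) (by omega), zero_add, add_zero] at c3
  have c4 : B.coeff 3 ^ 3 = 0 := by rw [← c3]; ring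
  exact pow_eq_zero_iff (three_ne_zero) |>.mp c4

/-- If `A` and `B` have degree at most two, the leading coefficients satisfy a relation. -/
theorem Sys.b2 (h : Sys Φ A B K E) (hA : A.natDegree ≤ 2) (hB : B.natDegree ≤ 2) :
    (B.coeff 2 ^ 2 - A.coeff 2 * K.coeff 2) * B.coeff 2 = 0 := by
  have hst := h.star
  have hK := h.dK
  have hE := h.dE
  have hA' : (derivative A).natDegree ≤ 1 := nd_der hA
  have hB' : (derivative B).natDegree ≤ 1 := nd_der hB
  have n1 : (derivative B - K).natDegree ≤ 2 :=
    (natDegree_sub_le _ _).trans (max_le (by omega) hK)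
  have n2 : (B - derivative A).natDegree ≤ 2 :=
    (natDegree_sub_le _ _).trans (max_le hB (by omega))
  have n3 : (A * (derivative B - K)).natDegree ≤ 4 :=
    natDegree_mul_le.trans (by omega)
  have n4 : (B * (B - derivative A)).natDegree ≤ 4 :=
    natDegree_mul_le.trans (by omega)
  have n5 : (HH A B K).natDegree ≤ 4 :=
    (natDegree_add_le _ _).trans (max_le (by omega) n4)
  have n6 : (derivative (HH A B K)).natDegree ≤ 3 := nd_der n5
  have n7 : (A * derivative (HH A B K)).natDegree ≤ 5 := natDegree_mul_le.trans (by omega)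
  have n8 : (2 * derivative A).natDegree ≤ 1 := by
    rw [show (2 : ℝ[X]) = C 2 from (map_ofNat C 2).symm]
    exact (natDegree_C_mul_le _ _).trans hA'
  have n9 : (B - 2 * derivative A).natDegree ≤ 2 :=
    (natDegree_sub_le _ _).trans (max_le hB (by omega))
  have n10 : (A ^ 2 * E).natDegree ≤ 5 := by
    refine natDegree_mul_le.trans ?_
    have := natDegree_pow_le_of_le 2 hA
    omega
  have c1 : (HH A B K).coeff 4 = B.coeff 2 ^ 2 - A.coeff 2 * K.coeff 2 := by
    rw [HH, coeff_add, show (4 : ℕ) = 2 + 2 from rfl, coeff_mul_add_eq_of_natDegree_le hB n2,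
      coeff_mul_add_eq_of_natDegree_le hA n1, coeff_sub, coeff_sub,
      coeff_eq_zero_of_natDegree_lt (p := derivative A) (by omega),
      coeff_eq_zero_of_natDegree_lt (p := derivative B) (by omega)]
    ring
  have c2 : (HH A B K * (B - 2 * derivative A)).coeff 6
      = (B.coeff 2 ^ 2 - A.coeff 2 * K.coeff 2) * B.coeff 2 := by
    rw [show (6 : ℕ) = 4 + 2 from rfl, coeff_mul_add_eq_of_natDegree_le n5 n9, c1, coeff_sub,
      coeff_eq_zero_of_natDegree_lt (p := 2 * derivative A) (by omega), sub_zero]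
  have c3 := congrArg (fun p => coeff p 6) hst
  simp only [coeff_add, coeff_zero] at c3
  rw [coeff_eq_zero_of_natDegree_lt (p := A * derivative (HH A B K)) (by omega), c2,
    coeff_eq_zero_of_natDegree_lt (p := A ^ 2 * E) (by omega), zero_add, add_zero] at c3
  exact c3

theorem quad_form {P : ℝ[X]} (hP : P.natDegree ≤ 2) :
    P = C (P.coeff 2) * X ^ 2 + C (P.coeff 1) * X + C (P.coeff 0) := by
  have hs := P.as_sum_range' 3 (by omega)
  simp only [Finset.sum_range_succ, Finset.sum_range_zero, zero_add, ← C_mul_X_pow_eq_monomial]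
    at hs
  conv_lhs => rw [hs]
  ring

theorem lin_form {P : ℝ[X]} (hP : P.natDegree ≤ 1) :
    P = C (P.coeff 1) * X + C (P.coeff 0) := by
  have hs := P.as_sum_range' 2 (by omega)
  simp only [Finset.sum_range_succ, Finset.sum_range_zero, zero_add, ← C_mul_X_pow_eq_monomial]
    at hs
  conv_lhs => rw [hs]
  ring

/-- The classification of the functionals. -/
theorem Sys.classify (h : Sys Φ A B K E) : Good Φ := by
  by_cases hd : B.degree < A.degree
  · exact h.regular hd
  push Not at hd
  have hnd : A.natDegree ≤ B.natDegree := natDegree_le_natDegree hd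
  have hB3 : B.natDegree ≤ 3 := h.dB
  have hb3 := h.b3 (hnd.trans hB3)
  have hB2 : B.natDegree ≤ 2 := by
    rw [natDegree_le_iff_coeff_eq_zero]
    intro N hN
    rcases Nat.lt_or_ge N 4 with hN' | hN'
    · have : N = 3 := by omega
      rw [this]; exact hb3
    · exact coeff_eq_zero_of_natDegree_lt (by omega)
  have hA2 : A.natDegree ≤ 2 := hnd.trans hB2
  rcases eq_or_ne (B.coeff 2) 0 with hb2 | hb2
  · have hB1 : B.natDegree ≤ 1 := by
      rw [natDegree_le_iff_coeff_eq_zero]
      intro N hN
      rcases Nat.lt_or_ge N 3 with hN' | hN'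
      · have : N = 2 := by omega
        rw [this]; exact hb2
      · exact coeff_eq_zero_of_natDegree_lt (by omega)
    have hA1 : A.natDegree ≤ 1 := hnd.trans hB1
    refine hl_good (a1 := A.coeff 1) (a0 := A.coeff 0) (b1 := B.coeff 1) (b0 := B.coeff 0)
      h.pos ?_ fun f => ?_
    · rintro ⟨h1, h2, -, -⟩
      apply h.hA
      rw [lin_form hA1, h1, h2, C_0]
      ring
    · rw [← lin_form hA1, ← lin_form hB1]
      exact h.m1 f
  · have hrel : B.coeff 2 ^ 2 - A.coeff 2 * K.coeff 2 = 0 :=
      (mul_eq_zero.mp (h.b2 hA2 hB2)).resolve_right hb2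
    have ha2 : A.coeff 2 ≠ 0 := by
      intro h0
      rw [h0, zero_mul, sub_zero] at hrel
      exact hb2 (pow_eq_zero_iff (two_ne_zero) |>.mp hrel)
    have eA := quad_form hA2
    have eB := quad_form hB2
    have eK := quad_form h.dK
    have eE := lin_form h.dE
    generalize A.coeff 2 = a2 at *
    generalize A.coeff 1 = a1 at *
    generalize A.coeff 0 = a0 at *
    generalize B.coeff 2 = b2 at *
    generalize B.coeff 1 = b1 at *
    generalize B.coeff 0 = b0 at *
    generalize K.coeff 2 = k2 at *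
    generalize K.coeff 1 = k1 at *
    generalize K.coeff 0 = k0 at *
    generalize E.coeff 1 = e1 at *
    generalize E.coeff 0 = e0 at *
    set α : ℝ := -(a2 / b2) with hα
    have hα0 : α ≠ 0 := neg_ne_zero.mpr (div_ne_zero ha2 hb2)
    set β : ℝ := -(a1 / (2 * a2)) with hβ
    set k : ℝ := (a2 * α)⁻¹ with hk
    have hk0 : k ≠ 0 := inv_ne_zero (mul_ne_zero ha2 hα0)
    have h1 := (h.chg hα0 β).smul hk0
    have hC2 : (C (2 : ℝ) : ℝ[X]) = 2 := map_ofNat C 2
    have fA : C k * (C α⁻¹ * aff α β A)
        = X ^ 2 + C (k * α⁻¹ * (a2 * β ^ 2 + a1 * β + a0)) := by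
      have t1 : (C k * C α⁻¹ * C a2 * C α ^ 2 : ℝ[X]) = 1 := by
        rw [← C_pow, ← C_mul, ← C_mul, ← C_mul, ← C_1]
        congr 1
        rw [hk]; field_simp
      have t2 : (2 * C a2 * C β + C a1 : ℝ[X]) = 0 := by
        rw [← hC2, ← C_mul, ← C_mul, ← C_add, ← C_0]
        congr 1
        rw [hβ]; field_simp; ring
      rw [eA, map_add, map_add, map_mul, map_mul, map_pow, aff_X, aff_C, aff_C, aff_C]
      simp only [C_mul, C_add, C_pow]
      linear_combination (X ^ 2) * t1 + (C k * C α⁻¹ * C α * X) * t2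
    have fB : C k * aff α β B = -X ^ 2 + C (k * α * (2 * b2 * β + b1)) * X
        + C (k * (b2 * β ^ 2 + b1 * β + b0)) := by
      have t1 : (C k * C b2 * C α ^ 2 : ℝ[X]) = -1 := by
        rw [← C_pow, ← C_mul, ← C_mul, ← C_1, ← C_neg]
        congr 1
        rw [hk, hα]; field_simp
      rw [eB, map_add, map_add, map_mul, map_mul, map_pow, aff_X, aff_C, aff_C, aff_C]
      simp only [C_mul, C_add, C_pow, hC2]
      linear_combination (X ^ 2) * t1
    have fK : C k * (C α * aff α β K) = X ^ 2 + C (k * α * α * (2 * k2 * β + k1)) * X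
        + C (k * α * (k2 * β ^ 2 + k1 * β + k0)) := by
      have t1 : (C k * C α * C k2 * C α ^ 2 : ℝ[X]) = 1 := by
        rw [← C_pow, ← C_mul, ← C_mul, ← C_mul, ← C_1]
        congr 1
        rw [hk, hα]
        field_simp
        linarith
      rw [eK, map_add, map_add, map_mul, map_mul, map_pow, aff_X, aff_C, aff_C, aff_C]
      simp only [C_mul, C_add, C_pow, hC2]
      linear_combination (X ^ 2) * t1
    have fE : C k * (C (α ^ 2) * aff α β E) = C (k * α ^ 2 * (e1 * α)) * X
        + C (k * α ^ 2 * (e1 * β + e0)) := by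
      rw [eE, map_add, map_mul, aff_X, aff_C, aff_C]
      simp only [C_mul, C_add, C_pow]
      ring
    rw [fA, fB, fK, fE] at h1
    exact Good.of_cv hα0 (lag_good h1)

end Pool.Agent.TH336.KR
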