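import Pool.Agent.TH336.KR.Star

/-!
# Affine changes of variable
-/

set_option autoImplicit false
open MeasureTheory Polynomial

namespace Pool.Agent.TH336.KR

variable {Φ : ℝ[X] →ₗ[ℝ] ℝ} {A B K E : ℝ[X]}

/-- `aff a b f = f (a X + b)`. -/
noncomputable def aff (a b : ℝ) : ℝ[X] →ₐ[ℝ] ℝ[X] := aeval (C a * X + C b)

theorem aff_eq (a b : ℝ) (f : ℝ[X]) : aff a b f = f.comp (C a * X + C b) := rfl

theorem aff_X (a b : ℝ) : aff a b X = C a * X + C b := by
  simp [aff]

theorem aff_C (a b c : ℝ) : aff a b (C c) = C c := by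
  simp [aff_eq]

theorem aff_aff (a b a' b' : ℝ) (f : ℝ[X]) :
    aff a b (aff a' b' f) = aff (a' * a) (a' * b + b') f := by
  simp only [aff_eq, comp_assoc]
  congr 1
  simp only [add_comp, mul_comp, C_comp, X_comp, C_mul, C_add]
  ring

theorem aff_one_zero (f : ℝ[X]) : aff 1 0 f = f := by
  simp [aff_eq]

theorem aff_inv {a : ℝ} (ha : a ≠ 0) (b : ℝ) (f : ℝ[X]) :
    aff a⁻¹ (-(b / a)) (aff a b f) = f := by
  rw [aff_aff, mul_inv_cancel₀ ha]
  have : a * -(b / a) + b = 0 := by field_simp; ring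
  rw [this, aff_one_zero]

theorem aff_inv' {a : ℝ} (ha : a ≠ 0) (b : ℝ) (f : ℝ[X]) :
    aff a b (aff a⁻¹ (-(b / a)) f) = f := by
  rw [aff_aff, inv_mul_cancel₀ ha]
  have : a⁻¹ * b + -(b / a) = 0 := by field_simp; ring
  rw [this, aff_one_zero]

theorem aff_eval (a b x : ℝ) (f : ℝ[X]) : (aff a b f).eval x = f.eval (a * x + b) := by
  simp [aff_eq, eval_comp]

theorem derivative_aff (a b : ℝ) (f : ℝ[X]) :
    derivative (aff a b f) = C a * aff a b (derivative f) := by
  simp only [aff_eq, derivative_comp]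
  simp

theorem natDegree_aff {a : ℝ} (ha : a ≠ 0) (b : ℝ) (f : ℝ[X]) :
    (aff a b f).natDegree = f.natDegree := by
  rw [aff_eq, natDegree_comp]
  have : (C a * X + C b).natDegree = 1 := natDegree_linear ha
  rw [this, mul_one]

theorem aff_ne_zero {a : ℝ} (ha : a ≠ 0) (b : ℝ) {f : ℝ[X]} (hf : f ≠ 0) : aff a b f ≠ 0 := by
  intro h
  apply hf
  rw [← aff_inv ha b f, h, map_zero]

/-- The functional in the variable `y` where `x = a y + b`. -/
noncomputable def cv (Φ : ℝ[X] →ₗ[ℝ] ℝ) (a b : ℝ) : ℝ[X] →ₗ[ℝ] ℝ :=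
  Φ.comp (aff a⁻¹ (-(b / a))).toLinearMap

theorem cv_apply (a b : ℝ) (f : ℝ[X]) : cv Φ a b f = Φ (aff a⁻¹ (-(b / a)) f) := rfl

theorem Sys.chg (h : Sys Φ A B K E) {a : ℝ} (ha : a ≠ 0) (b : ℝ) :
    Sys (cv Φ a b) (C a⁻¹ * aff a b A) (aff a b B) (C a * aff a b K)
      (C (a ^ 2) * aff a b E) where
  pos f hf := by
    rw [cv_apply, map_mul]
    exact h.pos _ (aff_ne_zero (inv_ne_zero ha) _ hf)
  hA := mul_ne_zero (by simpa using ha) (aff_ne_zero ha b h.hA)
  dA := by
    rw [natDegree_C_mul (inv_ne_zero ha), natDegree_aff ha]; exact h.dA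
  dB := by rw [natDegree_aff ha]; exact h.dB
  dK := by rw [natDegree_C_mul ha, natDegree_aff ha]; exact h.dK
  dE := by rw [natDegree_C_mul (pow_ne_zero 2 ha), natDegree_aff ha]; exact h.dE
  m1 f := by
    rw [cv_apply]
    set g := KR.aff a⁻¹ (-(b / a)) f with hg
    have h1 := h.m1 g
    have h2 : KR.aff a⁻¹ (-(b / a)) (C a⁻¹ * KR.aff a b A * derivative f + KR.aff a b B * f)
        = A * derivative g + B * g := by
      rw [map_add, map_mul, map_mul, map_mul, aff_inv ha, aff_inv ha, hg, derivative_aff, aff_C]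
      ring
    rw [h2, h1]
  m2 f := by
    rw [cv_apply]
    set g := KR.aff a⁻¹ (-(b / a)) f with hg
    have h1 := h.m2 g
    have hc : (C a : ℝ[X]) * C a⁻¹ = 1 := by rw [← C_mul, mul_inv_cancel₀ ha, C_1]
    have h2 : KR.aff a⁻¹ (-(b / a)) (KR.aff a b B * derivative (derivative f)
        + C a * KR.aff a b K * derivative f + C (a ^ 2) * KR.aff a b E * f)
        = C (a ^ 2) * (B * derivative (derivative g) + K * derivative g + E * g) := by
      simp only [map_add, map_mul, aff_inv ha, hg, derivative_aff, aff_C, derivative_mul,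
        derivative_C, zero_mul, zero_add, map_pow]
      set d1 := KR.aff a⁻¹ (-(b / a)) (derivative f)
      set d2 := KR.aff a⁻¹ (-(b / a)) (derivative (derivative f))
      linear_combination (-K * d1 * C a - B * d2 * (1 + C a * C a⁻¹)) * hc
    rw [h2]
    rw [← smul_eq_C_mul, map_smul, h1, smul_zero]
  eig D h1 h2 h3 h4 := by
    have hu : ∀ c : ℝ, c ≠ 0 → ∀ P : ℝ[X], D ∣ C c * KR.aff a b P →
        KR.aff a⁻¹ (-(b / a)) D ∣ P := by
      intro c hc P hP
      have h5 : D ∣ KR.aff a b P := by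
        have h6 : KR.aff a b P = C c⁻¹ * (C c * KR.aff a b P) := by
          rw [← mul_assoc, ← C_mul, inv_mul_cancel₀ hc, C_1, one_mul]
        rw [h6]
        exact Dvd.dvd.mul_left hP _
      have h7 := map_dvd (KR.aff a⁻¹ (-(b / a))) h5
      rwa [aff_inv ha] at h7
    have h5 := h.eig (KR.aff a⁻¹ (-(b / a)) D) (hu _ (inv_ne_zero ha) _ h1)
      (hu 1 one_ne_zero _ (by rwa [C_1, one_mul])) (hu _ ha _ h3) (hu _ (pow_ne_zero 2 ha) _ h4)
    rwa [natDegree_aff (inv_ne_zero ha)] at h5

theorem Sys.smul (h : Sys Φ A B K E) {k : ℝ} (hk : k ≠ 0) :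
    Sys Φ (C k * A) (C k * B) (C k * K) (C k * E) where
  pos := h.pos
  hA := mul_ne_zero (by simpa using hk) h.hA
  dA := by rw [natDegree_C_mul hk]; exact h.dA
  dB := by rw [natDegree_C_mul hk]; exact h.dB
  dK := by rw [natDegree_C_mul hk]; exact h.dK
  dE := by rw [natDegree_C_mul hk]; exact h.dE
  m1 f := by
    have h1 : C k * A * derivative f + C k * B * f = C k * (A * derivative f + B * f) := by ring
    rw [h1, ← smul_eq_C_mul, map_smul, h.m1, smul_zero]
  m2 f := by
    have h1 : C k * B * derivative (derivative f) + C k * K * derivative f + C k * E * f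
      = C k * (B * derivative (derivative f) + K * derivative f + E * f) := by ring
    rw [h1, ← smul_eq_C_mul, map_smul, h.m2, smul_zero]
  eig D h1 h2 h3 h4 := by
    have hu : ∀ P : ℝ[X], D ∣ C k * P → D ∣ P := by
      intro P hP
      have h6 : P = C k⁻¹ * (C k * P) := by
        rw [← mul_assoc, ← C_mul, inv_mul_cancel₀ hk, C_1, one_mul]
      rw [h6]
      exact Dvd.dvd.mul_left hP _
    exact h.eig D (hu _ h1) (hu _ h2) (hu _ h3) (hu _ h4)

theorem Good.of_cv {a b : ℝ} (ha : a ≠ 0) (h : Good (cv Φ a b)) : Good Φ := by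
  obtain ⟨μ, hμ, p, q, c, hp, hc, hf⟩ := h
  refine ⟨μ, hμ, a * p, a * q + b, c, mul_ne_zero ha hp, hc, fun f => ?_⟩
  have h1 := hf (aff a b f)
  rw [cv_apply, aff_inv ha, ← aff_eq, aff_aff] at h1
  rw [← h1, ← aff_eq]

/-- A common real root of `A` and `B` is at least a double root of `A`. -/
theorem Sys.double (h : Sys Φ A B K E) {r : ℝ} (hA : A.eval r = 0) (hB : B.eval r = 0) :
    (derivative A).eval r = 0 := by
  by_contra hne
  obtain ⟨a, ha⟩ := dvd_iff_isRoot.mpr hA
  obtain ⟨b, hb⟩ := dvd_iff_isRoot.mpr hB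
  have hX : (X - C r : ℝ[X]) ≠ 0 := X_sub_C_ne_zero r
  have hdA : derivative A = a + (X - C r) * derivative a := by
    rw [ha, derivative_mul, derivative_X_sub_C, one_mul]
  have hdB : derivative B = b + (X - C r) * derivative b := by
    rw [hb, derivative_mul, derivative_X_sub_C, one_mul]
  have ha0 : a.eval r ≠ 0 := by
    intro h0
    apply hne
    rw [hdA]
    simp [h0]
  have hst := h.star
  set H1 : ℝ[X] := a * (derivative B - K) + b * (B - derivative A) with hH1
  have hH : HH A B K = (X - C r) * H1 := by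
    rw [HH, hH1]
    nth_rewrite 1 [ha]
    nth_rewrite 2 [hb]
    ring
  have e1 : a * H1 + (X - C r) * (a * derivative H1) + H1 * (B - 2 * derivative A)
      + (X - C r) * (a ^ 2 * E) = 0 := by
    have h1 : (X - C r) * (a * H1 + (X - C r) * (a * derivative H1)
        + H1 * (B - 2 * derivative A) + (X - C r) * (a ^ 2 * E)) = 0 := by
      rw [← hst, hH, derivative_mul, derivative_X_sub_C, one_mul]
      linear_combination (-(H1 + (X - C r) * derivative H1) - (A + (X - C r) * a) * E) * ha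
    exact (mul_eq_zero.mp h1).resolve_left hX
  have e2 : H1.eval r = 0 := by
    have h1 := congrArg (eval r) e1
    simp only [eval_add, eval_mul, eval_sub, eval_X, eval_C, sub_self, zero_mul, hB,
      eval_ofNat, hdA, eval_zero, add_zero] at h1
    have h2 : eval r H1 * eval r a = 0 := by linarith
    exact (mul_eq_zero.mp h2).resolve_right ha0
  have e3 : K.eval r = 0 := by
    have h1 := e2
    rw [hH1] at h1
    simp only [eval_add, eval_mul, eval_sub, hB, hdA, hdB, eval_X, eval_C, sub_self,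
      zero_mul, add_zero, zero_sub] at h1
    have h2 : eval r a * eval r K = 0 := by linarith
    exact (mul_eq_zero.mp h2).resolve_left ha0
  obtain ⟨H2, hH2⟩ := dvd_iff_isRoot.mpr e2
  have e4 : a * H2 + a * (H2 + (X - C r) * derivative H2) + H2 * (B - 2 * derivative A)
      + a ^ 2 * E = 0 := by
    have h1 : (X - C r) * (a * H2 + a * (H2 + (X - C r) * derivative H2)
        + H2 * (B - 2 * derivative A) + a ^ 2 * E) = 0 := by
      rw [← e1, hH2, derivative_mul, derivative_X_sub_C, one_mul]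
      ring
    exact (mul_eq_zero.mp h1).resolve_left hX
  have e5 : E.eval r = 0 := by
    have h1 := congrArg (eval r) e4
    simp only [eval_add, eval_mul, eval_sub, eval_X, eval_C, sub_self, zero_mul, hB,
      eval_ofNat, hdA, eval_zero, add_zero, eval_pow] at h1
    have h2 : eval r a ^ 2 * eval r E = 0 := by linarith
    exact (mul_eq_zero.mp h2).resolve_left (pow_ne_zero 2 ha0)
  have := h.eig (X - C r) (dvd_iff_isRoot.mpr hA) (dvd_iff_isRoot.mpr hB)
    (dvd_iff_isRoot.mpr e3) (dvd_iff_isRoot.mpr e5)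
  rw [natDegree_X_sub_C] at this
  exact one_ne_zero this

end Pool.Agent.TH336.KR
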