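import Mathlib

/-!
# Definitions for MP_dd438b (Krall classification)
-/

set_option autoImplicit false
open MeasureTheory Polynomial

namespace Pool.Agent.TH336.KR

/-- A positive definite moment functional `Φ` with the two functional equations
`(A Φ)' = B Φ` and `(B Φ)'' - (K Φ)' + E Φ = 0`, and such that the polynomials `A, B, K, E`
have no common factor of positive degree. -/
structure Sys (Φ : ℝ[X] →ₗ[ℝ] ℝ) (A B K E : ℝ[X]) : Prop where
  pos : ∀ f : ℝ[X], f ≠ 0 → 0 < Φ (f * f)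
  hA : A ≠ 0
  dA : A.natDegree ≤ 4
  dB : B.natDegree ≤ 3
  dK : K.natDegree ≤ 2
  dE : E.natDegree ≤ 1
  m1 : ∀ f : ℝ[X], Φ (A * derivative f + B * f) = 0
  m2 : ∀ f : ℝ[X], Φ (B * derivative (derivative f) + K * derivative f + E * f) = 0
  eig : ∀ D : ℝ[X], D ∣ A → D ∣ B → D ∣ K → D ∣ E → D.natDegree = 0

/-- The list of measures in the frozen statement. -/
def Lst (μ : Measure ℝ) : Prop :=
  (∃ α β : ℝ, -1 < α ∧ -1 < β ∧
      μ = MeasureTheory.volume.withDensity (fun x : ℝ => ENNReal.ofReal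
        ((Set.Icc (-1 : ℝ) 1).indicator (fun y : ℝ => (1 - y) ^ α * (1 + y) ^ β) x)))
    ∨ (∃ α : ℝ, -1 < α ∧
      μ = MeasureTheory.volume.withDensity (fun x : ℝ => ENNReal.ofReal
        ((Set.Ioi (0 : ℝ)).indicator (fun y : ℝ => y ^ α * Real.exp (-y)) x)))
    ∨ (μ = MeasureTheory.volume.withDensity (fun x : ℝ => ENNReal.ofReal
        (Real.exp (-(x ^ 2)))))
    ∨ (∃ A : ℝ, 0 < A ∧
      μ = MeasureTheory.volume.restrict (Set.Icc (-1 : ℝ) 1)
        + ENNReal.ofReal (1 / A) • (MeasureTheory.Measure.dirac (-1 : ℝ)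
            + MeasureTheory.Measure.dirac (1 : ℝ)))
    ∨ (∃ R : ℝ, 0 < R ∧
      μ = MeasureTheory.volume.withDensity (fun x : ℝ => ENNReal.ofReal
        ((Set.Ioi (0 : ℝ)).indicator (fun y : ℝ => Real.exp (-y)) x))
        + ENNReal.ofReal (1 / R) • MeasureTheory.Measure.dirac (0 : ℝ))
    ∨ (∃ α M : ℝ, -1 < α ∧ 0 < M ∧
      μ = MeasureTheory.volume.withDensity (fun x : ℝ => ENNReal.ofReal
        ((Set.Ico (0 : ℝ) 1).indicator (fun y : ℝ => (1 - y) ^ α) x))
        + ENNReal.ofReal (1 / M) • MeasureTheory.Measure.dirac (0 : ℝ))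

/-- `Φ` is, up to an affine change of variable and a nonzero factor, integration against one of
the measures of the list. -/
def Good (Φ : ℝ[X] →ₗ[ℝ] ℝ) : Prop :=
  ∃ μ : Measure ℝ, Lst μ ∧ ∃ a b c : ℝ, a ≠ 0 ∧ c ≠ 0 ∧
    ∀ f : ℝ[X], ∫ x, (f.comp (C a * X + C b)).eval x ∂μ = c * Φ f

end Pool.Agent.TH336.KR
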