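import Pool.Agent.TH336.KR.Grow

/-!
# The two end points in the regular case
-/

set_option autoImplicit false
open MeasureTheory Polynomial Filter Topology

namespace Pool.Agent.TH336.KR

variable {Φ : ℝ[X] →ₗ[ℝ] ℝ} {A B K E : ℝ[X]}

theorem Sys.end_up (h : Sys Φ A B K E) {Kc R : ℝ} (hR : 0 < R)
    (hK : ∀ n : ℕ, |Φ (X ^ n)| ≤ Kc * R ^ n) :
    ∃ v : ℝ, A.eval v = 0 ∧ B.eval v = 0 ∧ ∀ f : ℝ[X], 0 ≤ Φ ((C v - X) * (f * f)) := by
  have h1 := h.chg (one_ne_zero) (-R)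
  set Ψ := cv Φ 1 (-R) with hΨ
  have hap : ∀ f : ℝ[X], Ψ f = Φ (aff 1 R f) := by
    intro f
    rw [hΨ, cv_apply]
    norm_num
  have hX : ∀ f : ℝ[X], 0 ≤ Ψ (X * (f * f)) := by
    intro f
    rw [hap, map_mul (aff 1 R), map_mul (aff 1 R), aff_X, C_1, one_mul]
    exact bound_dn h.pos hR hK _
  have hTX : ∀ f : ℝ[X], 0 ≤ Ψ ((C (2 * R) - X) * (f * f)) := by
    intro f
    rw [hap, map_mul (aff 1 R), map_mul (aff 1 R), map_sub (aff 1 R), aff_X, aff_C, C_1,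
      one_mul]
    have : (C (2 * R) - (X + C R) : ℝ[X]) = C R - X := by
      rw [two_mul, C_add]; ring
    rw [this]
    exact bound_up h.pos hR hK _
  obtain ⟨h0, l, hl, hle, hlim⟩ := ratio_limit h1.pos hX (by linarith : 0 < 2 * R) hTX
  obtain ⟨hA, hB⟩ := h1.top_zero h0 hlim
  have hgr : ∀ n : ℕ, |Ψ (X ^ n)| ≤ Ψ 1 * l ^ n := by
    intro n
    rw [abs_of_pos (h0 n)]
    induction n with
    | zero => simp
    | succ n ih =>
      calc Ψ (X ^ (n + 1)) ≤ l * Ψ (X ^ n) := hle n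
        _ ≤ l * (Ψ 1 * l ^ n) := mul_le_mul_of_nonneg_left ih hl.le
        _ = Ψ 1 * l ^ (n + 1) := by ring
  refine ⟨l - R, ?_, ?_, fun f => ?_⟩
  · rw [eval_mul, eval_C, inv_one, one_mul, aff_eval, one_mul] at hA
    exact hA
  · rw [aff_eval, one_mul] at hB
    exact hB
  · have h2 := bound_up h1.pos hl hgr (aff 1 (-R) f)
    rw [hap, map_mul (aff 1 R), map_mul (aff 1 R), map_sub (aff 1 R), aff_X, aff_C, aff_aff,
      C_1, one_mul] at h2
    have e1 : (1 : ℝ) * 1 = 1 := by norm_num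
    have e2 : 1 * R + -R = 0 := by ring
    rw [e1, e2, aff_one_zero] at h2
    have : (C (l - R) - X : ℝ[X]) = C l - (X + C R) := by rw [C_sub]; ring
    rw [this]
    exact h2

theorem Sys.end_dn (h : Sys Φ A B K E) {Kc R : ℝ} (hR : 0 < R)
    (hK : ∀ n : ℕ, |Φ (X ^ n)| ≤ Kc * R ^ n) :
    ∃ u : ℝ, A.eval u = 0 ∧ B.eval u = 0 ∧ ∀ f : ℝ[X], 0 ≤ Φ ((X - C u) * (f * f)) := by
  have hm1 : (-1 : ℝ) ≠ 0 := by norm_num
  have h1 := h.chg hm1 0
  set Ψ := cv Φ (-1) 0 with hΨ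
  have hap : ∀ f : ℝ[X], Ψ f = Φ (aff (-1) 0 f) := by
    intro f
    rw [hΨ, cv_apply]
    norm_num
  have hK' : ∀ n : ℕ, |Ψ (X ^ n)| ≤ Kc * R ^ n := by
    intro n
    rw [hap, map_pow, aff_X, C_0, add_zero, mul_pow, ← C_pow, ← smul_eq_C_mul, map_smul,
      smul_eq_mul, abs_mul, abs_pow, abs_neg, abs_one, one_pow, one_mul]
    exact hK n
  obtain ⟨v, hA, hB, hv⟩ := h1.end_up hR hK'
  refine ⟨-v, ?_, ?_, fun f => ?_⟩
  · rw [eval_mul, eval_C, aff_eval] at hA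
    have h2 : A.eval (-1 * v + 0) = 0 := by
      rcases mul_eq_zero.mp hA with h3 | h3
      · norm_num at h3
      · exact h3
    rw [← h2]; congr 1; ring
  · rw [aff_eval] at hB
    rw [← hB]; congr 1; ring
  · have h2 := hv (aff (-1) 0 f)
    rw [hap, map_mul (aff (-1) 0), map_mul (aff (-1) 0), map_sub (aff (-1) 0), aff_X, aff_C,
      aff_aff] at h2
    have e1 : (-1 : ℝ) * -1 = 1 := by norm_num
    have e2 : (-1 : ℝ) * 0 + 0 = 0 := by norm_num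
    rw [e1, e2, aff_one_zero] at h2
    have : (X - C (-v) : ℝ[X]) = C v - (C (-1) * X + C 0) := by
      simp only [C_neg, C_0, C_1]; ring
    rw [this]
    exact h2

theorem Sys.ends (h : Sys Φ A B K E) (hd : B.degree < A.degree) :
    ∃ u v : ℝ, u < v ∧ A.eval u = 0 ∧ B.eval u = 0 ∧ A.eval v = 0 ∧ B.eval v = 0 ∧
      (∀ f : ℝ[X], 0 ≤ Φ ((C v - X) * (f * f))) ∧
      ∀ f : ℝ[X], 0 ≤ Φ ((X - C u) * (f * f)) := by
  obtain ⟨Kc, R, hR, hK⟩ := h.growth hd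
  obtain ⟨v, hv1, hv2, hv3⟩ := h.end_up hR hK
  obtain ⟨u, hu1, hu2, hu3⟩ := h.end_dn hR hK
  refine ⟨u, v, ?_, hu1, hu2, hv1, hv2, hv3, hu3⟩
  by_contra hlt
  push Not at hlt
  -- strict positivity of `X - u` at `f = 1`
  have h1 := pos_of_nonneg h.pos (X_sub_C_ne_zero u) hu3 (one_ne_zero)
  have h2 := hv3 1
  have h3 := h.pos 1 one_ne_zero
  rw [mul_one] at h3
  have e1 : (C v - X) * ((1 : ℝ[X]) * 1) = (v - u) • (1 : ℝ[X]) - (X - C u) * (1 * 1) := by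
    rw [smul_eq_C_mul, C_sub]; ring
  rw [e1, map_sub, map_smul, smul_eq_mul] at h2
  have h4 : (v - u) * Φ 1 ≤ 0 := mul_nonpos_of_nonpos_of_nonneg (by linarith) h3.le
  linarith

/-- A polynomial of degree at most four with double zeros at `0` and `1`. -/
theorem quartic_form {P : ℝ[X]} (hP : P.natDegree ≤ 4) (h0 : P.eval 0 = 0)
    (h0' : (derivative P).eval 0 = 0) (h1 : P.eval 1 = 0) (h1' : (derivative P).eval 1 = 0) :
    ∃ k : ℝ, P = C k * (X * (1 - X)) ^ 2 := by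
  have hs := P.as_sum_range' 5 (by omega)
  simp only [Finset.sum_range_succ, Finset.sum_range_zero, zero_add, ← C_mul_X_pow_eq_monomial]
    at hs
  set a0 := P.coeff 0
  set a1 := P.coeff 1
  set a2 := P.coeff 2
  set a3 := P.coeff 3
  set a4 := P.coeff 4
  rw [hs] at h0 h0' h1 h1'
  simp at h0 h0' h1 h1'
  refine ⟨a4, ?_⟩
  rw [hs]
  have e1 : a1 = 0 := by simpa using h0'
  have e0 : a0 = 0 := by simpa using h0
  have e2 : a2 = a4 := by linarith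
  have e3 : a3 = -2 * a4 := by linarith
  rw [e0, e1, e2, e3, C_0, C_mul, C_neg, show (C (2 : ℝ) : ℝ[X]) = 2 from map_ofNat C 2]
  ring

theorem cubic_form {P : ℝ[X]} (hP : P.natDegree ≤ 3) (h0 : P.eval 0 = 0)
    (h1 : P.eval 1 = 0) :
    ∃ k l : ℝ, P = X * (1 - X) * (C k + C l * X) := by
  have hs := P.as_sum_range' 4 (by omega)
  simp only [Finset.sum_range_succ, Finset.sum_range_zero, zero_add, ← C_mul_X_pow_eq_monomial]
    at hs
  set a0 := P.coeff 0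
  set a1 := P.coeff 1
  set a2 := P.coeff 2
  set a3 := P.coeff 3
  rw [hs] at h0 h1
  simp at h0 h1
  refine ⟨a1, -a3, ?_⟩
  rw [hs]
  have e0 : a0 = 0 := by simpa using h0
  have e2 : a2 = -a1 - a3 := by linarith
  rw [e0, e2, C_0, C_sub, C_neg, C_neg]
  ring

end Pool.Agent.TH336.KR
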