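import Pool.Agent.TH336.KR.Top

/-!
# Geometric growth and the two end points in the regular case
-/

set_option autoImplicit false
open MeasureTheory Polynomial Filter Topology

namespace Pool.Agent.TH336.KR

variable {Φ : ℝ[X] →ₗ[ℝ] ℝ} {A B K E : ℝ[X]}

theorem geom_growth (m : ℕ → ℝ) (a n0 : ℕ) (Q : ℝ) (hQ : 0 ≤ Q)
    (h : ∀ n, n0 ≤ n → |m (n + a)| ≤ Q * ∑ i ∈ Finset.range a, |m (n + i)|) :
    ∃ Kc R : ℝ, 0 < R ∧ ∀ n, |m n| ≤ Kc * R ^ n := by
  set R : ℝ := max 1 (a * Q) with hR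
  set Kc : ℝ := ∑ j ∈ Finset.range (n0 + a), |m j| with hKc
  have hR1 : 1 ≤ R := le_max_left _ _
  have hRa : a * Q ≤ R := le_max_right _ _
  have hK0 : 0 ≤ Kc := Finset.sum_nonneg fun i _ => abs_nonneg _
  refine ⟨Kc, R, by linarith, fun n => ?_⟩
  induction n using Nat.strong_induction_on with
  | _ n ih =>
    rcases lt_or_ge n (n0 + a) with hn | hn
    · have h1 : |m n| ≤ Kc :=
        Finset.single_le_sum (f := fun j => |m j|) (fun i _ => abs_nonneg _)
          (Finset.mem_range.mpr hn)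
      calc |m n| ≤ Kc := h1
        _ = Kc * 1 := (mul_one _).symm
        _ ≤ Kc * R ^ n := mul_le_mul_of_nonneg_left (one_le_pow₀ hR1) hK0
    · obtain ⟨k, rfl⟩ : ∃ k, n = k + a := ⟨n - a, by omega⟩
      have hk : n0 ≤ k := by omega
      rcases Nat.eq_zero_or_pos a with ha | ha
      · subst ha
        have h1 := h k hk
        simp only [Finset.range_zero, Finset.sum_empty, mul_zero] at h1
        exact h1.trans (by positivity)
      · have h2 : ∑ i ∈ Finset.range a, |m (k + i)| ≤ a * (Kc * R ^ (k + a - 1)) := by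
          have h3 : ∀ i ∈ Finset.range a, |m (k + i)| ≤ Kc * R ^ (k + a - 1) := by
            intro i hi
            have hi' := Finset.mem_range.mp hi
            refine (ih (k + i) (by omega)).trans ?_
            exact mul_le_mul_of_nonneg_left (pow_le_pow_right₀ hR1 (by omega)) hK0
          have h4 := Finset.sum_le_sum h3
          rwa [Finset.sum_const, Finset.card_range, nsmul_eq_mul] at h4
        calc |m (k + a)| ≤ Q * ∑ i ∈ Finset.range a, |m (k + i)| := h k hk
          _ ≤ Q * (a * (Kc * R ^ (k + a - 1))) := mul_le_mul_of_nonneg_left h2 hQ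
          _ = (a * Q) * (Kc * R ^ (k + a - 1)) := by ring
          _ ≤ R * (Kc * R ^ (k + a - 1)) :=
              mul_le_mul_of_nonneg_right hRa (by positivity)
          _ = Kc * R ^ (k + a) := by
              have : k + a = (k + a - 1) + 1 := by omega
              rw [this, pow_succ]
              simp only [Nat.add_sub_cancel]
              ring

theorem sum_bound (a : ℕ) (c x : ℕ → ℝ) (S : ℝ) (hx : ∀ i < a, |x i| ≤ S) :
    |∑ i ∈ Finset.range a, c i * x i| ≤ (∑ i ∈ Finset.range a, |c i|) * S := by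
  refine (Finset.abs_sum_le_sum_abs _ _).trans ?_
  rw [Finset.sum_mul]
  refine Finset.sum_le_sum fun i hi => ?_
  rw [abs_mul]
  exact mul_le_mul_of_nonneg_left (hx i (Finset.mem_range.mp hi)) (abs_nonneg _)

theorem phi_sum (P : ℝ[X]) (a n : ℕ) (hP : P.natDegree < a) :
    Φ (P * X ^ n) = ∑ i ∈ Finset.range a, P.coeff i * Φ (X ^ (n + i)) := by
  nth_rewrite 1 [P.as_sum_range' a hP]
  rw [Finset.sum_mul, map_sum]
  refine Finset.sum_congr rfl fun i _ => ?_
  have : (monomial i (P.coeff i) : ℝ[X]) * X ^ n = (P.coeff i) • X ^ (n + i) := by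
    rw [← C_mul_X_pow_eq_monomial, smul_eq_C_mul, pow_add]
    ring
  rw [this, map_smul, smul_eq_mul]

theorem Sys.growth (h : Sys Φ A B K E) (hd : B.degree < A.degree) :
    ∃ Kc R : ℝ, 0 < R ∧ ∀ n : ℕ, |Φ (X ^ n)| ≤ Kc * R ^ n := by
  rcases Nat.eq_zero_or_pos A.natDegree with hA0 | hA0
  · exfalso
    obtain ⟨c, hc⟩ := natDegree_eq_zero.mp hA0
    have hc0 : c ≠ 0 := by
      rintro rfl
      apply h.hA
      rw [← hc, C_0]
    have hB : B = 0 := by
      rw [← hc, degree_C hc0] at hd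
      rw [← degree_eq_bot]
      exact Nat.WithBot.lt_zero_iff.mp hd
    have h1 := h.m1 X
    rw [hB, ← hc, derivative_X, zero_mul, add_zero, ← smul_eq_C_mul, map_smul,
      smul_eq_mul] at h1
    have h2 := h.pos 1 one_ne_zero
    rw [one_mul] at h2
    rcases mul_eq_zero.mp h1 with h3 | h3
    · exact hc0 h3
    · exact absurd h3 h2.ne'
  obtain ⟨a, ha⟩ : ∃ a, A.natDegree = a + 1 := ⟨A.natDegree - 1, by omega⟩
  have hBn : B.natDegree < a + 1 := by
    by_cases hB : B = 0
    · rw [hB, natDegree_zero]; omega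
    · rw [← ha]
      exact natDegree_lt_natDegree hB hd
  set m : ℕ → ℝ := fun n => Φ (X ^ n) with hm
  set t : ℝ := A.coeff (a + 1) with ht
  have ht0 : t ≠ 0 := by
    rw [ht, ← ha]
    exact leadingCoeff_ne_zero.mpr h.hA
  have htp : 0 < |t| := abs_pos.mpr ht0
  set SA : ℝ := ∑ i ∈ Finset.range (a + 1), |A.coeff i| with hSA
  set SB : ℝ := ∑ i ∈ Finset.range (a + 1), |B.coeff i| with hSB
  have hSA0 : 0 ≤ SA := Finset.sum_nonneg fun i _ => abs_nonneg _
  have hSB0 : 0 ≤ SB := Finset.sum_nonneg fun i _ => abs_nonneg _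
  obtain ⟨n0, hn0⟩ := exists_nat_ge (2 * SB / |t|)
  have hrec : ∀ n : ℕ, (((n : ℝ) + 1) * t + B.coeff a) * m (n + (a + 1))
      = -(((n : ℝ) + 1) * ∑ i ∈ Finset.range (a + 1), A.coeff i * m (n + i))
        - ∑ i ∈ Finset.range a, B.coeff i * m (n + (i + 1)) := by
    intro n
    have h1 := h.m1 (X ^ (n + 1))
    have h2 : A * derivative (X ^ (n + 1)) + B * X ^ (n + 1)
        = ((n : ℝ) + 1) • (A * X ^ n) + B * X ^ (n + 1) := by
      rw [dX, smul_eq_C_mul]; ring
    rw [h2, map_add, map_smul, smul_eq_mul, phi_sum A (a + 2) n (by omega),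
      phi_sum B (a + 1) (n + 1) hBn, Finset.sum_range_succ _ (a + 1),
      Finset.sum_range_succ (fun i => B.coeff i * Φ (X ^ (n + 1 + i))) a] at h1
    have h3 : ∑ i ∈ Finset.range a, B.coeff i * Φ (X ^ (n + 1 + i))
        = ∑ i ∈ Finset.range a, B.coeff i * m (n + (i + 1)) := by
      refine Finset.sum_congr rfl fun i _ => ?_
      simp only [hm]
      rw [show n + 1 + i = n + (i + 1) by ring]
    rw [h3] at h1
    have h4 : Φ (X ^ (n + 1 + a)) = m (n + (a + 1)) := by
      simp only [hm]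
      rw [show n + 1 + a = n + (a + 1) by ring]
    rw [h4] at h1
    have h5 : Φ (X ^ (n + (a + 1))) = m (n + (a + 1)) := rfl
    rw [h5] at h1
    simp only [hm] at h1 ⊢
    linarith
  refine geom_growth m (a + 1) n0 (2 * (SA + SB) / |t|) (by positivity) ?_
  intro n hn
  set S : ℝ := ∑ i ∈ Finset.range (a + 1), |m (n + i)| with hS
  have hS0 : 0 ≤ S := Finset.sum_nonneg fun i _ => abs_nonneg _
  have hmS : ∀ i < a + 1, |m (n + i)| ≤ S := fun i hi =>
    Finset.single_le_sum (f := fun j => |m (n + j)|) (fun i _ => abs_nonneg _)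
      (Finset.mem_range.mpr hi)
  have hb1 := sum_bound (a + 1) A.coeff (fun i => m (n + i)) S hmS
  have hb2 := sum_bound a B.coeff (fun i => m (n + (i + 1))) S (fun i hi => hmS _ (by omega))
  have hb3 : ∑ i ∈ Finset.range a, |B.coeff i| ≤ SB := by
    rw [hSB, Finset.sum_range_succ]
    linarith [abs_nonneg (B.coeff a)]
  have hb4 : |B.coeff a| ≤ SB := by
    rw [hSB, Finset.sum_range_succ]
    have : 0 ≤ ∑ i ∈ Finset.range a, |B.coeff i| := Finset.sum_nonneg fun i _ => abs_nonneg _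
    linarith
  have hn1 : (1 : ℝ) ≤ (n : ℝ) + 1 := by
    have : (0 : ℝ) ≤ n := Nat.cast_nonneg n
    linarith
  have hcoef : ((n : ℝ) + 1) * |t| / 2 ≤ |((n : ℝ) + 1) * t + B.coeff a| := by
    have h1 : |((n : ℝ) + 1) * t| - |B.coeff a| ≤ |((n : ℝ) + 1) * t + B.coeff a| := by
      have := abs_sub_abs_le_abs_sub (((n : ℝ) + 1) * t) (-B.coeff a)
      rwa [abs_neg, sub_neg_eq_add] at this
    have h2 : |((n : ℝ) + 1) * t| = ((n : ℝ) + 1) * |t| := by
      rw [abs_mul, abs_of_nonneg (by linarith)]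
    have h3 : 2 * SB ≤ ((n : ℝ) + 1) * |t| := by
      have h4 : 2 * SB / |t| ≤ (n : ℝ) := hn0.trans (by exact_mod_cast hn)
      rw [div_le_iff₀ htp] at h4
      nlinarith
    rw [h2] at h1
    linarith
  have hmain : ((n : ℝ) + 1) * |t| / 2 * |m (n + (a + 1))|
      ≤ ((n : ℝ) + 1) * ((SA + SB) * S) := by
    calc ((n : ℝ) + 1) * |t| / 2 * |m (n + (a + 1))|
        ≤ |((n : ℝ) + 1) * t + B.coeff a| * |m (n + (a + 1))| :=
          mul_le_mul_of_nonneg_right hcoef (abs_nonneg _)
      _ = |-(((n : ℝ) + 1) * ∑ i ∈ Finset.range (a + 1), A.coeff i * m (n + i))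
            - ∑ i ∈ Finset.range a, B.coeff i * m (n + (i + 1))| := by
          rw [← abs_mul, hrec]
      _ ≤ |((n : ℝ) + 1) * ∑ i ∈ Finset.range (a + 1), A.coeff i * m (n + i)|
            + |∑ i ∈ Finset.range a, B.coeff i * m (n + (i + 1))| := by
          refine (abs_sub _ _).trans ?_
          rw [abs_neg]
      _ ≤ ((n : ℝ) + 1) * (SA * S) + SB * S := by
          rw [abs_mul, abs_of_nonneg (show (0 : ℝ) ≤ (n : ℝ) + 1 by linarith)]
          refine add_le_add (mul_le_mul_of_nonneg_left hb1 (by linarith)) ?_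
          exact hb2.trans (mul_le_mul_of_nonneg_right hb3 hS0)
      _ ≤ ((n : ℝ) + 1) * ((SA + SB) * S) := by
          have : 0 ≤ SB * S := mul_nonneg hSB0 hS0
          nlinarith
  have h6 : |t| / 2 * |m (n + (a + 1))| ≤ (SA + SB) * S := by
    have h7 : ((n : ℝ) + 1) * (|t| / 2 * |m (n + (a + 1))|)
        ≤ ((n : ℝ) + 1) * ((SA + SB) * S) := by
      linarith
    exact le_of_mul_le_mul_left h7 (by linarith)
  rw [div_mul_eq_mul_div, le_div_iff₀ htp]
  linarith

end Pool.Agent.TH336.KR
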