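import Mathlib

/-!
# A power series lemma
-/

set_option autoImplicit false
open PowerSeries

namespace Pool.Agent.TH336.KR

theorem ode_key (m : ℕ → ℝ) (hm : m 0 ≠ 0) (a0 b1 b0 κ e1 q s e0 : ℝ)
    (h0 : -m 2 + b1 * m 1 + b0 * m 0 = 0)
    (h1 : ∀ k : ℕ, ((k : ℝ) + 1) * (m (k + 2) + a0 * m k) - m (k + 3) + b1 * m (k + 2)
      + b0 * m (k + 1) = 0)
    (g0 : e1 * m 1 + e0 * m 0 = 0)
    (g1 : κ * m 1 + s * m 0 + e1 * m 2 + e0 * m 1 = 0)
    (g2 : ∀ k : ℕ, ((k : ℝ) + 2) * ((k : ℝ) + 1) * (b1 * m (k + 1) + q * m k)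
      + ((k : ℝ) + 2) * (κ * m (k + 2) + s * m (k + 1)) + e1 * m (k + 3) + e0 * m (k + 2) = 0) :
    q ^ 2 + a0 * b1 ^ 2 = 0 := by
  set g : PowerSeries ℝ := PowerSeries.mk fun n => m n / (n.factorial : ℝ) with hg
  set u : PowerSeries ℝ := PowerSeries.mk fun n => m (n + 1) / (n.factorial : ℝ) with hu
  set v : PowerSeries ℝ := PowerSeries.mk fun n => m (n + 2) / (n.factorial : ℝ) with hv
  have hgu : derivative ℝ g = u := by
    ext n
    rw [coeff_derivative, hg, hu, coeff_mk, coeff_mk, Nat.factorial_succ]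
    have : (n.factorial : ℝ) ≠ 0 := by positivity
    push_cast
    field_simp
  have huv : derivative ℝ u = v := by
    ext n
    rw [coeff_derivative, hu, hv, coeff_mk, coeff_mk, Nat.factorial_succ]
    have : (n.factorial : ℝ) ≠ 0 := by positivity
    push_cast
    field_simp
  have hg0 : g ≠ 0 := by
    intro h
    have := congrArg (coeff 0) h
    rw [hg, coeff_mk] at this
    simp at this
    exact hm this
  have E1 : X * v - v + C b1 * u + (C a0 * (X * g) + C b0 * g) = 0 := by
    ext n
    rcases n with _ | k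
    · simp only [map_add, map_sub, coeff_zero_X_mul, coeff_C_mul, hg, hu, hv, coeff_mk,
        map_zero]
      simp only [Nat.factorial_zero, Nat.cast_one, div_one, mul_zero, zero_add, zero_sub]
      linarith
    · simp only [map_add, map_sub, coeff_succ_X_mul, coeff_C_mul, hg, hu, hv, coeff_mk,
        map_zero, Nat.factorial_succ]
      have : (k.factorial : ℝ) ≠ 0 := by positivity
      have : (k : ℝ) + 1 ≠ 0 := by positivity
      push_cast
      field_simp
      have := h1 k
      linarith
  have E2 : C b1 * (X * (X * u)) + C κ * (X * u) + C e1 * u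
      + (C q * (X * (X * g)) + C s * (X * g) + C e0 * g) = 0 := by
    ext n
    rcases n with _ | _ | k
    · simp only [map_add, coeff_zero_X_mul, coeff_C_mul, hg, hu, coeff_mk, map_zero]
      simp only [Nat.factorial_zero, Nat.cast_one, div_one, mul_zero, zero_add]
      linarith
    · simp only [map_add, coeff_zero_X_mul, coeff_succ_X_mul, coeff_C_mul, hg, hu, coeff_mk,
        map_zero]
      simp only [Nat.factorial_zero, Nat.factorial_one, Nat.cast_one, div_one, mul_zero,
        zero_add]
      linarith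
    · simp only [map_add, coeff_succ_X_mul, coeff_C_mul, hg, hu, coeff_mk, map_zero,
        Nat.factorial_succ]
      have : (k.factorial : ℝ) ≠ 0 := by positivity
      have : (k : ℝ) + 1 ≠ 0 := by positivity
      have : (k : ℝ) + 2 ≠ 0 := by positivity
      have : (k : ℝ) + 1 + 1 ≠ 0 := by positivity
      push_cast
      field_simp
      have := g2 k
      have e1' : (k : ℝ) + 1 + 1 = (k : ℝ) + 2 := by ring
      rw [e1']
      linarith
  -- the polynomials
  obtain ⟨P, hP⟩ : ∃ P : Polynomial ℝ, P = Polynomial.C b1 * Polynomial.X ^ 2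
    + Polynomial.C κ * Polynomial.X + Polynomial.C e1 := ⟨_, rfl⟩
  obtain ⟨Q, hQ⟩ : ∃ Q : Polynomial ℝ, Q = Polynomial.C q * Polynomial.X ^ 2
    + Polynomial.C s * Polynomial.X + Polynomial.C e0 := ⟨_, rfl⟩
  have hPc : (P : PowerSeries ℝ) = C b1 * X ^ 2 + C κ * X + C e1 := by
    rw [hP]; push_cast; rfl
  have hQc : (Q : PowerSeries ℝ) = C q * X ^ 2 + C s * X + C e0 := by
    rw [hQ]; push_cast; rfl
  have E2' : (P : PowerSeries ℝ) * u + (Q : PowerSeries ℝ) * g = 0 := by
    rw [hPc, hQc, ← E2]; ring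
  have E3 : (Polynomial.derivative P : PowerSeries ℝ) * u + (P : PowerSeries ℝ) * v
      + ((Polynomial.derivative Q : PowerSeries ℝ) * g + (Q : PowerSeries ℝ) * u) = 0 := by
    have h := congrArg (derivative ℝ) E2'
    rw [map_add, Derivation.leibniz, Derivation.leibniz, map_zero, hgu, huv, derivative_coe,
      derivative_coe] at h
    simp only [smul_eq_mul] at h
    rw [← h]; ring
  set S : Polynomial ℝ := (Polynomial.X - 1) * (Polynomial.derivative P * Q
      - P * Polynomial.derivative Q + Q ^ 2) - Polynomial.C b1 * P * Q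
      + (Polynomial.C a0 * Polynomial.X + Polynomial.C b0) * P ^ 2 with hS
  have E4 : (S : PowerSeries ℝ) * g = 0 := by
    have hSc : (S : PowerSeries ℝ) = (X - 1 : PowerSeries ℝ)
      * ((Polynomial.derivative P : PowerSeries ℝ) * (Q : PowerSeries ℝ)
      - (P : PowerSeries ℝ) * (Polynomial.derivative Q : PowerSeries ℝ)
      + (Q : PowerSeries ℝ) ^ 2)
      - C b1 * (P : PowerSeries ℝ) * (Q : PowerSeries ℝ)
      + (C a0 * X + C b0) * (P : PowerSeries ℝ) ^ 2 := by
      rw [hS]
      simp only [Polynomial.coe_add, Polynomial.coe_sub, Polynomial.coe_mul,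
        Polynomial.coe_pow, Polynomial.coe_X, Polynomial.coe_one, Polynomial.coe_C]
    rw [hSc]
    linear_combination ((P : PowerSeries ℝ) ^ 2) * E1 - (X - 1) * (P : PowerSeries ℝ) * E3
      + ((X - 1) * ((Polynomial.derivative P : PowerSeries ℝ) + (Q : PowerSeries ℝ))
        - C b1 * (P : PowerSeries ℝ)) * E2'
  have E5 : S = 0 := by
    have h := (mul_eq_zero.mp E4).resolve_right hg0
    exact Polynomial.coe_eq_zero_iff.mp h
  have hdP : Polynomial.derivative P = Polynomial.C (2 * b1) * Polynomial.X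
      + Polynomial.C κ := by
    rw [hP]
    simp only [Polynomial.derivative_add, Polynomial.derivative_C_mul,
      Polynomial.derivative_X_pow, Polynomial.derivative_X, Polynomial.derivative_C]
    simp
    ring
  have hdQ : Polynomial.derivative Q = Polynomial.C (2 * q) * Polynomial.X
      + Polynomial.C s := by
    rw [hQ]
    simp only [Polynomial.derivative_add, Polynomial.derivative_C_mul,
      Polynomial.derivative_X_pow, Polynomial.derivative_X, Polynomial.derivative_C]
    simp
    ring
  have hev : ∀ t : ℝ, (t - 1) * ((2 * b1 * t + κ) * (q * t ^ 2 + s * t + e0)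
      - (b1 * t ^ 2 + κ * t + e1) * (2 * q * t + s) + (q * t ^ 2 + s * t + e0) ^ 2)
      - b1 * (b1 * t ^ 2 + κ * t + e1) * (q * t ^ 2 + s * t + e0)
      + (a0 * t + b0) * (b1 * t ^ 2 + κ * t + e1) ^ 2 = 0 := by
    intro t
    have h := congrArg (Polynomial.eval t) E5
    rw [hS, hdP, hdQ, hP, hQ] at h
    simpa using h
  have t0 := hev 0
  have t1 := hev 1
  have t2 := hev 2
  have t3 := hev 3
  have t4 := hev 4
  have t5 := hev 5
  linear_combination (t5 - 5 * t4 + 10 * t3 - 10 * t2 + 5 * t1 - t0) / 120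

end Pool.Agent.TH336.KR
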