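import Pool.Agent.TH336.KR.Jac2
import Pool.Agent.TH336.KR.PS
import Pool.Agent.TH830.J352
import Pool.Agent.TH830.J356

/-!
# Hermite and Laguerre cases
-/

set_option autoImplicit false
open MeasureTheory Polynomial Filter Topology

namespace Pool.Agent.TH336.KR

variable {Φ : ℝ[X] →ₗ[ℝ] ℝ} {A B K E : ℝ[X]}

theorem cv_m1 (h : ∀ f : ℝ[X], Φ (A * derivative f + B * f) = 0) {a : ℝ} (ha : a ≠ 0) (b : ℝ)
    (f : ℝ[X]) : cv Φ a b (C a⁻¹ * aff a b A * derivative f + aff a b B * f) = 0 := by
  rw [cv_apply]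
  have h1 := h (aff a⁻¹ (-(b / a)) f)
  have h2 : KR.aff a⁻¹ (-(b / a)) (C a⁻¹ * KR.aff a b A * derivative f + KR.aff a b B * f)
      = A * derivative (aff a⁻¹ (-(b / a)) f) + B * aff a⁻¹ (-(b / a)) f := by
    rw [map_add, map_mul, map_mul, map_mul, aff_inv ha, aff_inv ha, derivative_aff, aff_C]
    ring
  rw [h2, h1]

theorem cv_pos (pos : ∀ f : ℝ[X], f ≠ 0 → 0 < Φ (f * f)) {a : ℝ} (ha : a ≠ 0) (b : ℝ)
    (f : ℝ[X]) (hf : f ≠ 0) : 0 < cv Φ a b (f * f) := by
  rw [cv_apply, map_mul]
  exact pos _ (aff_ne_zero (inv_ne_zero ha) _ hf)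

theorem lin_zero {p q : ℝ} (pos : ∀ f : ℝ[X], f ≠ 0 → 0 < Φ (f * f))
    (h : ∀ f : ℝ[X], Φ ((C p * X + C q) * f) = 0) : p = 0 ∧ q = 0 := by
  have h1 : (C p * X + C q : ℝ[X]) = 0 := ext0 pos h
  have e0 := congrArg (eval (0 : ℝ)) h1
  have e1 := congrArg (eval (1 : ℝ)) h1
  simp at e0 e1
  exact ⟨by rw [e0] at e1; simpa using e1, e0⟩

/-- Functionals with a Pearson equation with linear coefficients. -/
theorem hl_good (pos : ∀ f : ℝ[X], f ≠ 0 → 0 < Φ (f * f)) {a1 a0 b1 b0 : ℝ}
    (hne : ¬ (a1 = 0 ∧ a0 = 0 ∧ b1 = 0 ∧ b0 = 0))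
    (h : ∀ f : ℝ[X], Φ ((C a1 * X + C a0) * derivative f + (C b1 * X + C b0) * f) = 0) :
    Good Φ := by
  have h1p : 0 < Φ 1 := by
    have := pos 1 one_ne_zero
    simpa using this
  have hb1 : b1 ≠ 0 := by
    intro hb1
    have e1 := h 1
    rw [derivative_one, mul_zero, zero_add, hb1, C_0, zero_mul, zero_add, mul_one] at e1
    have e2 : (C b0 : ℝ[X]) = b0 • (1 : ℝ[X]) := by rw [smul_eq_C_mul, mul_one]
    rw [e2, map_smul, smul_eq_mul] at e1
    have hb0 : b0 = 0 := (mul_eq_zero.mp e1).resolve_right h1p.ne'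
    have e3 := h (C (a1 / 2) * X ^ 2 + C a0 * X)
    have e4 : derivative (C (a1 / 2) * X ^ 2 + C a0 * X : ℝ[X]) = C a1 * X + C a0 := by
      rw [derivative_add, derivative_C_mul, derivative_C_mul, derivative_X, derivative_X_pow]
      have : (C a1 : ℝ[X]) = C (a1 / 2) * C 2 := by rw [← C_mul]; congr 1; ring
      rw [this]
      simp
      ring
    rw [e4, hb1, hb0, C_0, zero_mul, zero_add, zero_mul, add_zero] at e3
    have e5 : (C a1 * X + C a0 : ℝ[X]) = 0 := by
      by_contra hne'
      have := pos _ hne'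
      rw [e3] at this
      exact lt_irrefl _ this
    have e6 := congrArg (eval (0 : ℝ)) e5
    have e7 := congrArg (eval (1 : ℝ)) e5
    simp at e6 e7
    rw [e6] at e7
    exact hne ⟨by simpa using e7, e6, hb1, hb0⟩
  rcases eq_or_ne a1 0 with ha1 | ha1
  · -- Hermite
    have ha0 : a0 ≠ 0 := by
      intro ha0
      refine hb1 (lin_zero (p := b1) (q := b0) pos fun f => ?_).1
      have := h f
      rw [ha1, ha0, C_0, zero_mul, zero_add, zero_mul, zero_add] at this
      exact this
    have hneg : 0 < -(a0 / b1) := by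
      have h2 := cv_m1 h one_ne_zero (-(b0 / b1)) X
      have hp := cv_pos pos one_ne_zero (-(b0 / b1))
      have e1 : C (1 : ℝ)⁻¹ * aff 1 (-(b0 / b1)) (C a1 * X + C a0) * derivative X
          + aff 1 (-(b0 / b1)) (C b1 * X + C b0) * X = a0 • (1 * 1) + b1 • (X * X) := by
        have e2 : (C b0 : ℝ[X]) = C b1 * C (b0 / b1) := by
          rw [← C_mul]; congr 1; field_simp
        rw [map_add, map_add, map_mul, map_mul, aff_X, aff_C, aff_C, aff_C, aff_C, ha1, e2,
          smul_eq_C_mul, smul_eq_C_mul, derivative_X, inv_one, C_1, C_0, C_neg]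
        ring
      rw [e1, map_add, map_smul, map_smul, smul_eq_mul, smul_eq_mul] at h2
      have p1 := hp 1 one_ne_zero
      have p2 := hp X X_ne_zero
      have e3 : -(a0 / b1) = cv Φ 1 (-(b0 / b1)) (X * X) / cv Φ 1 (-(b0 / b1)) (1 * 1) := by
        rw [eq_div_iff p1.ne', ← neg_div, div_mul_eq_mul_div, div_eq_iff hb1]
        linarith
      rw [e3]
      exact div_pos p2 p1
    set α : ℝ := Real.sqrt (2 * -(a0 / b1)) with hα
    have hα2 : α ^ 2 = 2 * -(a0 / b1) := Real.sq_sqrt (by positivity)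
    have hαp : 0 < α := Real.sqrt_pos.mpr (by positivity)
    refine Good.of_cv (a := α) (b := -(b0 / b1)) hαp.ne' ?_
    refine Pool.Agent.TH830.J352.good_hermite _ ?_ fun f => ?_
    · have := cv_pos pos hαp.ne' (-(b0 / b1)) 1 one_ne_zero
      simpa using this
    · have h2 := cv_m1 h hαp.ne' (-(b0 / b1)) f
      have e1 : C α⁻¹ * aff α (-(b0 / b1)) (C a1 * X + C a0) * derivative f
          + aff α (-(b0 / b1)) (C b1 * X + C b0) * f
          = (a0 / α) • (derivative f - 2 * X * f) := by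
        have e2 : (C b0 : ℝ[X]) = C b1 * C (b0 / b1) := by
          rw [← C_mul]; congr 1; field_simp
        have e3 : (C b1 : ℝ[X]) * C α = -(C (a0 / α) * 2) := by
          rw [← C_mul, show (2 : ℝ[X]) = C 2 from (map_ofNat C 2).symm, ← C_mul, ← C_neg]
          congr 1
          field_simp
          rw [hα2]
          field_simp
        have e4 : (C α⁻¹ * C a0 : ℝ[X]) = C (a0 / α) := by
          rw [← C_mul]; congr 1; field_simp
        rw [map_add, map_add, map_mul, map_mul, aff_X, aff_C, aff_C, aff_C, aff_C, ha1, e2,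
          smul_eq_C_mul, C_0, C_neg]
        linear_combination (derivative f) * e4 + (X * f) * e3
      rw [e1, map_smul, smul_eq_mul] at h2
      exact (mul_eq_zero.mp h2).resolve_left (div_ne_zero ha0 hαp.ne')
  · -- Laguerre
    set α : ℝ := -(a1 / b1) with hα
    have hα0 : α ≠ 0 := neg_ne_zero.mpr (div_ne_zero ha1 hb1)
    set β : ℝ := -(a0 / a1) with hβ
    set δ : ℝ := (b1 * β + b0) / a1 with hδ
    have hp := cv_pos pos hα0 β
    have hL : ∀ f : ℝ[X], cv Φ α β (X * derivative f + (C δ - X) * f) = 0 := by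
      intro f
      have h2 := cv_m1 h hα0 β f
      have e1 : C α⁻¹ * aff α β (C a1 * X + C a0) * derivative f
          + aff α β (C b1 * X + C b0) * f
          = a1 • (X * derivative f + (C δ - X) * f) := by
        have e2 : (C α⁻¹ : ℝ[X]) * C a1 * C α = C a1 := by
          rw [← C_mul, ← C_mul]; congr 1; field_simp
        have e3 : (C a1 : ℝ[X]) * C β + C a0 = 0 := by
          rw [← C_mul, ← C_add, ← C_0]; congr 1; rw [hβ]; field_simp; ring
        have e4 : (C b1 : ℝ[X]) * C α = -C a1 := by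
          rw [← C_mul, ← C_neg]; congr 1; rw [hα]; field_simp
        have e5 : (C b1 : ℝ[X]) * C β + C b0 = C a1 * C δ := by
          rw [← C_mul, ← C_mul, ← C_add]; congr 1; rw [hδ]; field_simp
        rw [map_add, map_add, map_mul, map_mul, aff_X, aff_C, aff_C, aff_C, aff_C,
          smul_eq_C_mul]
        linear_combination (X * derivative f) * e2 + (C α⁻¹ * derivative f) * e3
          + (X * f) * e4 + f * e5
      rw [e1, map_smul, smul_eq_mul] at h2
      exact (mul_eq_zero.mp h2).resolve_left ha1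
    have hm1 : cv Φ α β X = δ * cv Φ α β 1 := by
      have h2 := hL 1
      rw [derivative_one, mul_zero, zero_add, mul_one, map_sub] at h2
      have e2 : (C δ : ℝ[X]) = δ • (1 : ℝ[X]) := by rw [smul_eq_C_mul, mul_one]
      rw [e2, map_smul, smul_eq_mul] at h2
      linarith
    have hm2 : cv Φ α β (X * X) = (1 + δ) * cv Φ α β X := by
      have h2 := hL X
      have e2 : X * derivative X + (C δ - X) * X = (1 + δ) • (X : ℝ[X]) - X * X := by
        rw [derivative_X, smul_eq_C_mul, C_add, C_1]; ring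
      rw [e2, map_sub, map_smul, smul_eq_mul] at h2
      linarith
    have hδ0 : 0 < δ := by
      have h2 := hp (X - C δ) (X_sub_C_ne_zero δ)
      have e2 : (X - C δ) * (X - C δ) = X * X - (2 * δ) • (X : ℝ[X]) + (δ ^ 2) • (1 : ℝ[X]) := by
        simp only [smul_eq_C_mul, C_mul, C_pow, show (C (2 : ℝ) : ℝ[X]) = 2 from map_ofNat C 2]
        ring
      rw [e2, map_add, map_sub, map_smul, map_smul, smul_eq_mul, smul_eq_mul, hm2, hm1] at h2
      have h3 := hp 1 one_ne_zero
      rw [mul_one] at h3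
      have h4 : 0 < δ * cv Φ α β 1 := by nlinarith
      exact (pos_iff_pos_of_mul_pos h4).mpr h3
    refine Good.of_cv (a := α) (b := β) hα0 ?_
    refine Pool.Agent.TH830.J352.good_laguerre _ ?_ (δ - 1) (by linarith) fun f => ?_
    · have := hp 1 one_ne_zero
      simpa using this
    · rw [sub_add_cancel]
      exact hL f

end Pool.Agent.TH336.KR
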