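import Pool.Agent.TH336.KR.Ends

/-!
# Normal form in the regular case and the exponents
-/

set_option autoImplicit false
open MeasureTheory Polynomial Filter Topology

namespace Pool.Agent.TH336.KR

variable {Φ : ℝ[X] →ₗ[ℝ] ℝ} {A B K E : ℝ[X]}

theorem Sys.norm (h : Sys Φ A B K E) (hd : B.degree < A.degree) :
    ∃ a b : ℝ, a ≠ 0 ∧ ∃ (k l : ℝ) (K' E' : ℝ[X]),
      Sys (cv Φ a b) ((X * (1 - X)) ^ 2) (X * (1 - X) * (C k + C l * X)) K' E' ∧
      (∀ f : ℝ[X], 0 ≤ cv Φ a b (X * (f * f))) ∧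
      ∀ f : ℝ[X], 0 ≤ cv Φ a b ((1 - X) * (f * f)) := by
  obtain ⟨u, v, huv, hAu, hBu, hAv, hBv, hv, hu⟩ := h.ends hd
  have ha : v - u ≠ 0 := sub_ne_zero.mpr huv.ne'
  set a : ℝ := v - u with hadef
  have hapos : 0 < a := by rw [hadef]; linarith
  have h1 := h.chg ha u
  have eA0 : (C a⁻¹ * aff a u A).eval 0 = 0 := by
    rw [eval_mul, aff_eval, mul_zero, zero_add, hAu, mul_zero]
  have eA1 : (C a⁻¹ * aff a u A).eval 1 = 0 := by
    rw [eval_mul, aff_eval, mul_one, hadef, sub_add_cancel, hAv, mul_zero]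
  have eB0 : (aff a u B).eval 0 = 0 := by
    rw [aff_eval, mul_zero, zero_add, hBu]
  have eB1 : (aff a u B).eval 1 = 0 := by
    rw [aff_eval, mul_one, hadef, sub_add_cancel, hBv]
  obtain ⟨k, hk⟩ := quartic_form h1.dA eA0 (h1.double eA0 eB0) eA1 (h1.double eA1 eB1)
  obtain ⟨p, q, hpq⟩ := cubic_form h1.dB eB0 eB1
  have hk0 : k ≠ 0 := by
    rintro rfl
    apply h1.hA
    rw [hk, C_0, zero_mul]
  have h2 := h1.smul (inv_ne_zero hk0)
  refine ⟨a, u, ha, k⁻¹ * p, k⁻¹ * q, C k⁻¹ * (C a * aff a u K),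
    C k⁻¹ * (C (a ^ 2) * aff a u E), ?_, ?_, ?_⟩
  rotate_left 1
  · intro f
    rw [cv_apply, map_mul (aff a⁻¹ (-(u / a))), map_mul (aff a⁻¹ (-(u / a))), aff_X]
    have h3 := hu (aff a⁻¹ (-(u / a)) f)
    have e1 : (C a⁻¹ * X + C (-(u / a))) * (aff a⁻¹ (-(u / a)) f * aff a⁻¹ (-(u / a)) f)
        = a⁻¹ • ((X - C u) * (aff a⁻¹ (-(u / a)) f * aff a⁻¹ (-(u / a)) f)) := by
      rw [smul_eq_C_mul, C_neg, div_eq_mul_inv, C_mul]
      ring
    rw [e1, map_smul, smul_eq_mul]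
    exact mul_nonneg (inv_pos.mpr hapos).le h3
  · intro f
    rw [cv_apply, map_mul (aff a⁻¹ (-(u / a))), map_mul (aff a⁻¹ (-(u / a))),
      map_sub (aff a⁻¹ (-(u / a))), map_one (aff a⁻¹ (-(u / a))), aff_X]
    have h3 := hv (aff a⁻¹ (-(u / a)) f)
    have e2 : (1 : ℝ[X]) = C (a⁻¹ * (v - u)) := by
      rw [← hadef, inv_mul_cancel₀ ha, C_1]
    have e1 : (1 - (C a⁻¹ * X + C (-(u / a))))
          * (aff a⁻¹ (-(u / a)) f * aff a⁻¹ (-(u / a)) f)
        = a⁻¹ • ((C v - X) * (aff a⁻¹ (-(u / a)) f * aff a⁻¹ (-(u / a)) f)) := by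
      rw [e2, smul_eq_C_mul, C_neg, div_eq_mul_inv, C_mul, C_mul, C_sub]
      ring
    rw [e1, map_smul, smul_eq_mul]
    exact mul_nonneg (inv_pos.mpr hapos).le h3
  · rw [hk, hpq] at h2
    have e1 : C k⁻¹ * (C k * (X * (1 - X)) ^ 2) = ((X * (1 - X)) ^ 2 : ℝ[X]) := by
      rw [← mul_assoc, ← C_mul, inv_mul_cancel₀ hk0, C_1, one_mul]
    have e2 : C k⁻¹ * (X * (1 - X) * (C p + C q * X))
        = (X * (1 - X) * (C (k⁻¹ * p) + C (k⁻¹ * q) * X) : ℝ[X]) := by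
      rw [C_mul, C_mul]; ring
    rw [e1, e2] at h2
    exact h2

/-- A sequence with a hypergeometric ratio and bounded sums. -/
theorem kappa_gt_one (z : ℕ → ℝ) (s κ T : ℝ) (hz : ∀ n, 0 < z n)
    (hrec : ∀ n : ℕ, ((n : ℝ) + s) * z (n + 1) = ((n : ℝ) + s - κ) * z n)
    (hsum : ∀ N, ∑ n ∈ Finset.range N, z n ≤ T) : 1 < κ := by
  by_contra hκ
  push Not at hκ
  have hS : Summable z := summable_of_sum_range_le (fun n => (hz n).le) hsum
  obtain ⟨n0, hn0⟩ := exists_nat_gt (1 + |s|)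
  have hs1 : -|s| ≤ s := neg_abs_le s
  have hs2 : s ≤ |s| := le_abs_self s
  have hn0' : 0 < (n0 : ℝ) - 1 + s := by linarith
  have hmono : ∀ k : ℕ, ((n0 : ℝ) - 1 + s) * z n0 ≤ ((n0 + k : ℕ) - 1 + s) * z (n0 + k) := by
    intro k
    induction k with
    | zero => simp
    | succ k ih =>
      refine ih.trans ?_
      have h1 := hrec (n0 + k)
      have h2 : (((n0 + (k + 1) : ℕ) : ℝ) - 1 + s) = ((n0 + k : ℕ) : ℝ) + s := by
        push_cast; ring
      rw [h2, ← add_assoc, h1]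
      have h3 := hz (n0 + k)
      nlinarith
  have hc : 0 < ((n0 : ℝ) - 1 + s) * z n0 := mul_pos hn0' (hz _)
  set c : ℝ := ((n0 : ℝ) - 1 + s) * z n0 with hcdef
  -- comparison with the harmonic series
  obtain ⟨M, hM⟩ := exists_nat_ge (|s|)
  have hcomp : ∀ k : ℕ, c * (1 / ((k + (n0 + M) : ℕ) : ℝ)) ≤ z (n0 + k) := by
    intro k
    have h1 := hmono k
    have h2 : (0 : ℝ) < ((k + (n0 + M) : ℕ) : ℝ) := by
      have h3 : (0 : ℝ) < n0 := by linarith [abs_nonneg s]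
      push_cast
      have : (0 : ℝ) ≤ k := Nat.cast_nonneg k
      have : (0 : ℝ) ≤ M := Nat.cast_nonneg M
      linarith
    rw [mul_one_div, div_le_iff₀ h2]
    refine h1.trans ?_
    rw [mul_comm]
    refine mul_le_mul_of_nonneg_left ?_ (hz _).le
    push_cast
    linarith
  have hS1 : Summable fun k => z (n0 + k) := by
    have := (summable_nat_add_iff n0).mpr hS
    refine this.congr fun k => ?_
    rw [add_comm]
  have hS2 : Summable fun k : ℕ => c * (1 / ((k + (n0 + M) : ℕ) : ℝ)) :=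
    Summable.of_nonneg_of_le (fun k => by positivity) hcomp hS1
  have hS3 : Summable fun k : ℕ => (1 / ((k + (n0 + M) : ℕ) : ℝ)) := by
    have := hS2.mul_left c⁻¹
    refine this.congr fun k => ?_
    rw [← mul_assoc, inv_mul_cancel₀ hc.ne', one_mul]
  exact Real.not_summable_one_div_natCast
    ((summable_nat_add_iff (f := fun k : ℕ => 1 / (k : ℝ)) (n0 + M)).mp hS3)

theorem ge_one_sub (h1X : ∀ f : ℝ[X], 0 ≤ Φ ((1 - X) * (f * f)))
    (pos : ∀ f : ℝ[X], f ≠ 0 → 0 < Φ (f * f)) (n : ℕ) : 0 ≤ Φ ((1 - X) ^ n) := by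
  rcases Nat.even_or_odd' n with ⟨k, rfl | rfl⟩
  · have h1 : ((1 - X) ^ (2 * k) : ℝ[X]) = (1 - X) ^ k * (1 - X) ^ k := by ring
    rw [h1]
    by_cases h0 : ((1 - X) ^ k : ℝ[X]) = 0
    · simp [h0]
    · exact (pos _ h0).le
  · have h1 : ((1 - X) ^ (2 * k + 1) : ℝ[X]) = (1 - X) * ((1 - X) ^ k * (1 - X) ^ k) := by ring
    rw [h1]
    exact h1X _

theorem ge_X (hX : ∀ f : ℝ[X], 0 ≤ Φ (X * (f * f)))
    (pos : ∀ f : ℝ[X], f ≠ 0 → 0 < Φ (f * f)) (n : ℕ) : 0 ≤ Φ (X ^ n) := by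
  rcases Nat.even_or_odd' n with ⟨k, rfl | rfl⟩
  · have h1 : (X ^ (2 * k) : ℝ[X]) = X ^ k * X ^ k := by ring
    rw [h1]
    exact (pos _ (pow_ne_zero _ X_ne_zero)).le
  · have h1 : (X ^ (2 * k + 1) : ℝ[X]) = X * (X ^ k * X ^ k) := by ring
    rw [h1]
    exact hX _

theorem one_sub_X_ne : (1 - X : ℝ[X]) ≠ 0 := by
  intro h
  have := congrArg (eval (0 : ℝ)) h
  simp at this

theorem sig_nonneg (hX : ∀ f : ℝ[X], 0 ≤ Φ (X * (f * f)))
    (h1X : ∀ f : ℝ[X], 0 ≤ Φ ((1 - X) * (f * f))) (f : ℝ[X]) :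
    0 ≤ Φ (X * (1 - X) * (f * f)) := by
  have e1 : X * (1 - X) * (f * f) = X * ((1 - X) * f * ((1 - X) * f))
      + (1 - X) * (X * f * (X * f)) := by ring
  rw [e1, map_add]
  exact add_nonneg (hX _) (h1X _)

/-- The exponent at zero. -/
theorem exp_zero {k l : ℝ}
    (h : Sys Φ ((X * (1 - X)) ^ 2) (X * (1 - X) * (C k + C l * X)) K E)
    (hX : ∀ f : ℝ[X], 0 ≤ Φ (X * (f * f)))
    (h1X : ∀ f : ℝ[X], 0 ≤ Φ ((1 - X) * (f * f))) : 1 < k := by
  have hsig : (X * (1 - X) : ℝ[X]) ≠ 0 := mul_ne_zero X_ne_zero one_sub_X_ne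
  have hpos : ∀ n : ℕ, 0 < Φ (X * (1 - X) * (1 - X) ^ n) := by
    intro n
    rcases Nat.even_or_odd' n with ⟨j, rfl | rfl⟩
    · have h1 : (X * (1 - X) * (1 - X) ^ (2 * j) : ℝ[X])
        = X * (1 - X) * ((1 - X) ^ j * (1 - X) ^ j) := by ring
      rw [h1]
      exact pos_of_nonneg h.pos hsig (sig_nonneg hX h1X) (pow_ne_zero _ one_sub_X_ne)
    · have h1 : (X * (1 - X) * (1 - X) ^ (2 * j + 1) : ℝ[X])
        = X * ((1 - X) ^ (j + 1) * (1 - X) ^ (j + 1)) := by ring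
      rw [h1]
      exact pos_of_nonneg h.pos X_ne_zero hX (pow_ne_zero _ one_sub_X_ne)
  refine kappa_gt_one (fun n => Φ (X * (1 - X) * (1 - X) ^ n)) (-l) k (Φ (1 - X)) hpos ?_ ?_
  · intro n
    have h1 := h.m1 ((1 - X) ^ n)
    have hd : derivative ((1 - X) ^ n : ℝ[X]) * (1 - X) = -(C (n : ℝ)) * (1 - X) ^ n := by
      rw [derivative_pow, derivative_sub, derivative_one, derivative_X]
      rcases n with _ | m
      · simp
      · simp only [Nat.add_sub_cancel]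
        ring
    have e1 : (X * (1 - X)) ^ 2 * derivative ((1 - X) ^ n)
        + X * (1 - X) * (C k + C l * X) * (1 - X) ^ n
        = (k + l - n) • (X * (1 - X) * (1 - X) ^ n)
          + ((n : ℝ) - l) • (X * (1 - X) * (1 - X) ^ (n + 1)) := by
      simp only [smul_eq_C_mul, C_sub, C_add]
      linear_combination (X ^ 2 * (1 - X)) * hd
    rw [e1, map_add, map_smul, map_smul, smul_eq_mul, smul_eq_mul] at h1
    linarith
  · intro N
    have e1 : ∑ n ∈ Finset.range N, Φ (X * (1 - X) * (1 - X) ^ n)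
        = Φ (1 - X) - Φ ((1 - X) ^ (N + 1)) := by
      rw [← map_sum, ← Finset.mul_sum, ← map_sub]
      congr 1
      have := mul_neg_geom_sum (1 - X : ℝ[X]) N
      have h2 : (1 - (1 - X) : ℝ[X]) = X := by ring
      rw [h2] at this
      linear_combination (1 - X) * this
    rw [e1]
    linarith [ge_one_sub h1X h.pos (N + 1)]

/-- The exponent at one. -/
theorem exp_one {k l : ℝ}
    (h : Sys Φ ((X * (1 - X)) ^ 2) (X * (1 - X) * (C k + C l * X)) K E)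
    (hX : ∀ f : ℝ[X], 0 ≤ Φ (X * (f * f)))
    (h1X : ∀ f : ℝ[X], 0 ≤ Φ ((1 - X) * (f * f))) : 1 < -l - k := by
  have hsig : (X * (1 - X) : ℝ[X]) ≠ 0 := mul_ne_zero X_ne_zero one_sub_X_ne
  have hpos : ∀ n : ℕ, 0 < Φ (X * (1 - X) * X ^ n) := by
    intro n
    rcases Nat.even_or_odd' n with ⟨j, rfl | rfl⟩
    · have h1 : (X * (1 - X) * X ^ (2 * j) : ℝ[X])
        = X * (1 - X) * (X ^ j * X ^ j) := by ring
      rw [h1]
      exact pos_of_nonneg h.pos hsig (sig_nonneg hX h1X) (pow_ne_zero _ X_ne_zero)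
    · have h1 : (X * (1 - X) * X ^ (2 * j + 1) : ℝ[X])
        = (1 - X) * (X ^ (j + 1) * X ^ (j + 1)) := by ring
      rw [h1]
      exact pos_of_nonneg h.pos one_sub_X_ne h1X (pow_ne_zero _ X_ne_zero)
  refine kappa_gt_one (fun n => Φ (X * (1 - X) * X ^ n)) (-l) (-l - k) (Φ X) hpos ?_ ?_
  · intro n
    have h1 := h.m1 (X ^ n)
    have hd : derivative (X ^ n : ℝ[X]) * X = (C (n : ℝ)) * X ^ n := by
      rw [derivative_X_pow]
      rcases n with _ | m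
      · simp
      · simp only [Nat.add_sub_cancel]
        ring
    have e1 : (X * (1 - X)) ^ 2 * derivative (X ^ n)
        + X * (1 - X) * (C k + C l * X) * X ^ n
        = ((n : ℝ) + k) • (X * (1 - X) * X ^ n)
          - ((n : ℝ) - l) • (X * (1 - X) * X ^ (n + 1)) := by
      simp only [smul_eq_C_mul, C_sub, C_add]
      linear_combination (X * (1 - X) ^ 2) * hd
    rw [e1, map_sub, map_smul, map_smul, smul_eq_mul, smul_eq_mul] at h1
    linarith
  · intro N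
    have e1 : ∑ n ∈ Finset.range N, Φ (X * (1 - X) * X ^ n)
        = Φ X - Φ (X ^ (N + 1)) := by
      rw [← map_sum, ← Finset.mul_sum, ← map_sub]
      congr 1
      have := mul_neg_geom_sum (X : ℝ[X]) N
      linear_combination X * this
    rw [e1]
    linarith [ge_X hX h.pos (N + 1)]

end Pool.Agent.TH336.KR
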