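import Pool.Agent.TH336.KR.Jac1
import Pool.Agent.TH858.J353
import Pool.Agent.TH858.J354

/-!
# The regular case: Jacobi, Jacobi type and Legendre type
-/

set_option autoImplicit false
open MeasureTheory Polynomial Filter Topology

namespace Pool.Agent.TH336.KR

variable {Φ : ℝ[X] →ₗ[ℝ] ℝ} {A B K E : ℝ[X]}

/-- decomposition with respect to the two end points -/
theorem decomp (f : ℝ[X]) : ∃ g : ℝ[X],
    f = C (f.eval 0) * (1 - X) + C (f.eval 1) * X + X * (1 - X) * g := by
  have h0 : (f - C (f.eval 0) * (1 - X) - C (f.eval 1) * X).eval 0 = 0 := by simp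
  have h1 : (f - C (f.eval 0) * (1 - X) - C (f.eval 1) * X).eval 1 = 0 := by simp
  obtain ⟨g1, hg1⟩ := dvd_iff_isRoot.mpr h0
  rw [C_0, sub_zero] at hg1
  have h2 : g1.eval 1 = 0 := by
    rw [hg1] at h1
    simpa using h1
  obtain ⟨g2, hg2⟩ := dvd_iff_isRoot.mpr h2
  refine ⟨-g2, ?_⟩
  rw [hg2] at hg1
  rw [C_1] at hg1
  linear_combination hg1

/-- The integration functional on `σ ℝ[X]` is determined by the first equation. -/
theorem sig_eq {J : ℝ[X] →ₗ[ℝ] ℝ} {k l : ℝ} (hl : ∀ n : ℕ, (n : ℝ) - l ≠ 0)
    (hΦ : ∀ f : ℝ[X], Φ ((X * (1 - X)) ^ 2 * derivative f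
      + X * (1 - X) * (C k + C l * X) * f) = 0)
    (hJ : ∀ f : ℝ[X], J ((X * (1 - X)) ^ 2 * derivative f
      + X * (1 - X) * (C k + C l * X) * f) = 0)
    {c : ℝ} (hc : Φ (X * (1 - X)) = c * J (X * (1 - X))) (f : ℝ[X]) :
    Φ (X * (1 - X) * f) = c * J (X * (1 - X) * f) := by
  have hrec : ∀ (Ψ : ℝ[X] →ₗ[ℝ] ℝ), (∀ f : ℝ[X], Ψ ((X * (1 - X)) ^ 2 * derivative f
      + X * (1 - X) * (C k + C l * X) * f) = 0) → ∀ n : ℕ,
      ((n : ℝ) - l) * Ψ (X * (1 - X) * X ^ (n + 1))
        = ((n : ℝ) + k) * Ψ (X * (1 - X) * X ^ n) := by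
    intro Ψ hΨ n
    have h1 := hΨ (X ^ n)
    have hd : derivative (X ^ n : ℝ[X]) * X = (C (n : ℝ)) * X ^ n := by
      rw [derivative_X_pow]
      rcases n with _ | m
      · simp
      · simp only [Nat.add_sub_cancel]
        ring
    have e1 : (X * (1 - X)) ^ 2 * derivative (X ^ n)
        + X * (1 - X) * (C k + C l * X) * X ^ n
        = ((n : ℝ) + k) • (X * (1 - X) * X ^ n)
          - ((n : ℝ) - l) • (X * (1 - X) * X ^ (n + 1)) := by
      simp only [smul_eq_C_mul, C_sub, C_add]
      linear_combination (X * (1 - X) ^ 2) * hd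
    rw [e1, map_sub, map_smul, map_smul, smul_eq_mul, smul_eq_mul] at h1
    linarith
  have hmon : ∀ n : ℕ, Φ (X * (1 - X) * X ^ n) = c * J (X * (1 - X) * X ^ n) := by
    intro n
    induction n with
    | zero => simpa using hc
    | succ n ih =>
      have h1 := hrec Φ hΦ n
      have h2 := hrec J hJ n
      rw [ih] at h1
      have h3 : ((n : ℝ) - l) * Φ (X * (1 - X) * X ^ (n + 1))
          = ((n : ℝ) - l) * (c * J (X * (1 - X) * X ^ (n + 1))) := by
        rw [h1]
        linear_combination (-c) * h2
      exact mul_left_cancel₀ (hl n) h3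
  induction f using Polynomial.induction_on' with
  | add p q hp hq => rw [mul_add, map_add, map_add, hp, hq]; ring
  | monomial n a =>
    have : X * (1 - X) * (monomial n a : ℝ[X]) = a • (X * (1 - X) * X ^ n) := by
      rw [← C_mul_X_pow_eq_monomial, smul_eq_C_mul]; ring
    rw [this, map_smul, map_smul, smul_eq_mul, smul_eq_mul, hmon]
    ring

/-- The regular case in normal form. -/
theorem jac_good {k l : ℝ}
    (h : Sys Φ ((X * (1 - X)) ^ 2) (X * (1 - X) * (C k + C l * X)) K E)
    (hX : ∀ f : ℝ[X], 0 ≤ Φ (X * (f * f)))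
    (h1X : ∀ f : ℝ[X], 0 ≤ Φ ((1 - X) * (f * f))) : Good Φ := by
  have hk := exp_zero h hX h1X
  have hl := exp_one h hX h1X
  obtain ⟨α, hα⟩ : ∃ α : ℝ, k = α + 2 := ⟨k - 2, by ring⟩
  obtain ⟨β, hβ⟩ : ∃ β : ℝ, l = -(α + β + 4) := ⟨-l - α - 4, by ring⟩
  have hα1 : -1 < α := by linarith
  have hβ1 : -1 < β := by linarith
  obtain ⟨J, hJdef, hJp, hJpos, hJspos, hJ0, hJ1⟩ :=
    Pool.Agent.TH858.J354.jac_facts α β hα1 hβ1
  obtain ⟨σ, hσ⟩ : ∃ s : ℝ[X], s = X * (1 - X) := ⟨_, rfl⟩
  obtain ⟨τ, hτ⟩ : ∃ s : ℝ[X], s = C (α + 1) * (1 - X) - C (β + 1) * X := ⟨_, rfl⟩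
  obtain ⟨b, hb⟩ : ∃ s : ℝ[X], s = C k + C l * X := ⟨_, rfl⟩
  have hσne : σ ≠ 0 := by rw [hσ]; exact mul_ne_zero X_ne_zero one_sub_X_ne
  have hsn := sig_nonneg hX h1X
  have hsigE := @sig_eq Φ J k l
  rw [← hσ, ← hb] at h hsigE
  rw [← hσ] at hsn
  rw [← hσ, ← hτ] at hJp
  rw [← hσ] at hJspos
  have hdσ : derivative σ = 1 - 2 * X := by
    rw [hσ]
    simp only [derivative_mul, derivative_sub, derivative_X, derivative_one]
    ring
  have hbτ : b = τ + derivative σ := by
    rw [hb, hτ, hdσ, hα, hβ]
    simp only [C_add, C_neg, C_1, show (C (2 : ℝ) : ℝ[X]) = 2 from map_ofNat C 2,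
      show (C (4 : ℝ) : ℝ[X]) = 4 from map_ofNat C 4]
    ring
  have hdb : derivative b = C l := by
    rw [hb]
    simp
  have hJ2 : ∀ f : ℝ[X], J (σ ^ 2 * derivative f + σ * b * f) = 0 := by
    intro f
    have h1 := hJp (σ * f)
    rw [derivative_mul] at h1
    rw [← h1]
    congr 1
    rw [hbτ]
    ring
  have hJs : 0 < J σ := by
    have := hJspos 1 one_ne_zero
    simpa using this
  set c : ℝ := Φ σ / J σ with hc
  have hcJ : Φ σ = c * J σ := by rw [hc, div_mul_cancel₀ _ hJs.ne']
  have hΦs : 0 < Φ σ := by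
    have := pos_of_nonneg h.pos hσne hsn (one_ne_zero)
    simpa using this
  have hc0 : 0 < c := div_pos hΦs hJs
  have hnl : ∀ n : ℕ, (n : ℝ) - l ≠ 0 := by
    intro n
    have : (0 : ℝ) ≤ n := Nat.cast_nonneg n
    have : 0 < (n : ℝ) - l := by linarith
    exact this.ne'
  have hsig := hsigE hnl h.m1 hJ2 hcJ
  set M0 : ℝ := Φ (1 - X) - c * J (1 - X) with hM0
  set M1 : ℝ := Φ X - c * J X with hM1
  have hdec : ∀ f : ℝ[X], Φ f = c * J f + M0 * f.eval 0 + M1 * f.eval 1 := by
    intro f
    obtain ⟨g, hg⟩ := decomp f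
    have h1 : ∀ Ψ : ℝ[X] →ₗ[ℝ] ℝ, Ψ f = f.eval 0 * Ψ (1 - X) + f.eval 1 * Ψ X
        + Ψ (σ * g) := by
      intro Ψ
      conv_lhs => rw [hg, ← hσ]
      rw [map_add, map_add, ← smul_eq_C_mul, ← smul_eq_C_mul, map_smul, map_smul, smul_eq_mul,
        smul_eq_mul]
    rw [h1 Φ, h1 J, hsig g, hM0, hM1]
    ring
  -- the masses are nonnegative
  have hM1n : 0 ≤ M1 := by
    have h1 : Tendsto (fun n : ℕ => c * J (X ^ (n + 1)) + M1) atTop (𝓝 (c * 0 + M1)) :=
      ((hJ0.comp (tendsto_add_atTop_nat 1)).const_mul c).add_const M1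
    rw [mul_zero, zero_add] at h1
    refine ge_of_tendsto' h1 fun n => ?_
    have h2 := ge_X hX h.pos (n + 1)
    rw [hdec] at h2
    simpa using h2
  have hM0n : 0 ≤ M0 := by
    have h1 : Tendsto (fun n : ℕ => c * J ((1 - X) ^ (n + 1)) + M0) atTop (𝓝 (c * 0 + M0)) :=
      ((hJ1.comp (tendsto_add_atTop_nat 1)).const_mul c).add_const M0
    rw [mul_zero, zero_add] at h1
    refine ge_of_tendsto' h1 fun n => ?_
    have h2 := ge_one_sub h1X h.pos (n + 1)
    rw [hdec] at h2
    simpa using h2
  -- the second equation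
  obtain ⟨Q, hQ⟩ : ∃ s : ℝ[X], s = K - τ * b - σ * C l := ⟨_, rfl⟩
  have hJm2 : ∀ f : ℝ[X], J (σ * b * derivative (derivative f) + K * derivative f + E * f)
      = J (Q * derivative f + E * f) := by
    intro f
    have h1 := hJp (b * derivative f)
    rw [derivative_mul, hdb] at h1
    have h2 : σ * b * derivative (derivative f) + K * derivative f + E * f
        = (Q * derivative f + E * f)
          + (σ * (C l * derivative f + b * derivative (derivative f))
            + τ * (b * derivative f)) := by
      rw [hQ]; ring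
    rw [h2, map_add, h1, add_zero]
  have hstar : ∀ f : ℝ[X], c * J (Q * derivative f + E * f)
      + M0 * (K.eval 0 * (derivative f).eval 0 + E.eval 0 * f.eval 0)
      + M1 * (K.eval 1 * (derivative f).eval 1 + E.eval 1 * f.eval 1) = 0 := by
    intro f
    have h1 := h.m2 f
    rw [hdec, hJm2] at h1
    have e0 : σ.eval 0 = 0 := by rw [hσ]; simp
    have e1 : σ.eval 1 = 0 := by rw [hσ]; simp
    simp only [eval_add, eval_mul, e0, e1, zero_mul, zero_add] at h1
    exact h1
  -- the polynomial identity
  have hI : Q * (derivative σ - τ) - σ * derivative Q + σ * E = 0 := by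
    obtain ⟨P, hP⟩ : ∃ s : ℝ[X], s = Q * (derivative σ - τ) - σ * derivative Q + σ * E :=
      ⟨_, rfl⟩
    rw [← hP]
    by_contra hne
    have h1 : ∀ g : ℝ[X], J (σ * P * g) = 0 := by
      intro g
      have h2 := hstar (σ ^ 2 * g)
      have e0 : σ.eval 0 = 0 := by rw [hσ]; simp
      have e1 : σ.eval 1 = 0 := by rw [hσ]; simp
      have e2 : derivative (σ ^ 2 * g) = σ * (2 * derivative σ * g + σ * derivative g) := by
        rw [derivative_mul, pow_two, derivative_mul]; ring
      have e3 : (derivative (σ ^ 2 * g)).eval 0 = 0 := by rw [e2, eval_mul, e0, zero_mul]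
      have e4 : (derivative (σ ^ 2 * g)).eval 1 = 0 := by rw [e2, eval_mul, e1, zero_mul]
      have e5 : (σ ^ 2 * g).eval 0 = 0 := by rw [eval_mul, eval_pow, e0]; ring
      have e6 : (σ ^ 2 * g).eval 1 = 0 := by rw [eval_mul, eval_pow, e1]; ring
      rw [e3, e4, e5, e6] at h2
      have h3 : J (Q * derivative (σ ^ 2 * g) + E * (σ ^ 2 * g)) = 0 := by
        have : c * J (Q * derivative (σ ^ 2 * g) + E * (σ ^ 2 * g)) = 0 := by linarith
        exact (mul_eq_zero.mp this).resolve_left hc0.ne'
      have h4 := hJp (Q * σ * g)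
      have h5 : σ * P * g = (Q * derivative (σ ^ 2 * g) + E * (σ ^ 2 * g))
          - (σ * derivative (Q * σ * g) + τ * (Q * σ * g)) := by
        have e7 : derivative (Q * σ * g)
            = (derivative Q * σ + Q * derivative σ) * g + Q * σ * derivative g := by
          rw [derivative_mul, derivative_mul]
        rw [hP, e2, e7]
        ring
      rw [h5, map_sub, h3, h4, sub_zero]
    have h2 := h1 P
    have h3 := hJspos P hne
    rw [mul_assoc] at h2
    rw [h2] at h3
    exact lt_irrefl _ h3
  -- values at the end points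
  have evσ0 : σ.eval 0 = 0 := by rw [hσ]; simp
  have evσ1 : σ.eval 1 = 0 := by rw [hσ]; simp
  have evd0 : (derivative σ).eval 0 = 1 := by rw [hdσ]; simp
  have evd1 : (derivative σ).eval 1 = -1 := by rw [hdσ]; simp; norm_num
  have evτ0 : τ.eval 0 = α + 1 := by rw [hτ]; simp
  have evτ1 : τ.eval 1 = -(β + 1) := by rw [hτ]; simp
  have evb0 : b.eval 0 = α + 2 := by rw [hbτ, eval_add, evτ0, evd0]; ring
  have evb1 : b.eval 1 = -(β + 2) := by rw [hbτ, eval_add, evτ1, evd1]; ring
  have hQ0 : α * Q.eval 0 = 0 := by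
    have h1 := congrArg (eval 0) hI
    simp only [eval_add, eval_sub, eval_mul, evσ0, evd0, evτ0, eval_zero, zero_mul] at h1
    linarith
  have hQ1 : β * Q.eval 1 = 0 := by
    have h1 := congrArg (eval 1) hI
    simp only [eval_add, eval_sub, eval_mul, evσ1, evd1, evτ1, eval_zero, zero_mul] at h1
    linarith
  have hK0 : K.eval 0 = Q.eval 0 + (α + 1) * (α + 2) := by
    rw [hQ]
    simp only [eval_sub, eval_mul, evσ0, evτ0, evb0]
    ring
  have hK1 : K.eval 1 = Q.eval 1 + (β + 1) * (β + 2) := by
    rw [hQ]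
    simp only [eval_sub, eval_mul, evσ1, evτ1, evb1]
    ring
  -- no mass at zero when `Q 0 = 0`
  have hZ0 : Q.eval 0 = 0 → M0 = 0 := by
    intro hq
    obtain ⟨Q1, hQ1'⟩ := dvd_iff_isRoot.mpr hq
    rw [C_0, sub_zero] at hQ1'
    have hI1 : Q1 * (derivative σ - τ) - (1 - X) * (Q1 + X * derivative Q1)
        + (1 - X) * E = 0 := by
      have h1 : X * (Q1 * (derivative σ - τ) - (1 - X) * (Q1 + X * derivative Q1)
        + (1 - X) * E) = 0 := by
        have e1 : derivative Q = Q1 + X * derivative Q1 := by
          rw [hQ1', derivative_mul, derivative_X, one_mul]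
        rw [← hI, e1]
        linear_combination (-(derivative σ - τ)) * hQ1' + (Q1 + X * derivative Q1 - E) * hσ
      exact (mul_eq_zero.mp h1).resolve_left X_ne_zero
    have h1 := hstar ((1 - X) * σ)
    have e0 : derivative ((1 - X) * σ) = -σ + (1 - X) * derivative σ := by
      rw [derivative_mul, derivative_sub, derivative_one, derivative_X]; ring
    have h4 := hJp (Q1 * σ)
    have h5 : Q * derivative ((1 - X) * σ) + E * ((1 - X) * σ)
        = σ * derivative (Q1 * σ) + τ * (Q1 * σ) := by
      have e1 : derivative (Q1 * σ) = derivative Q1 * σ + Q1 * derivative σ := derivative_mul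
      rw [e0, e1, hdσ, hQ1']
      rw [hdσ] at hI1
      linear_combination (σ) * hI1 - (Q1 * (1 - 2 * X) + σ * derivative Q1) * hσ
    rw [h5, h4, e0] at h1
    simp only [eval_add, eval_mul, eval_neg, eval_sub, eval_one, eval_X, evσ0, evσ1, evd0,
      evd1] at h1
    have h6 : M0 * K.eval 0 = 0 := by linarith
    rw [hK0, hq] at h6
    rcases mul_eq_zero.mp h6 with h7 | h7
    · exact h7
    · have : 0 < (α + 1) * (α + 2) := by nlinarith
      linarith
  have hZ1 : Q.eval 1 = 0 → M1 = 0 := by
    intro hq
    obtain ⟨Q1, hQ1'⟩ := dvd_iff_isRoot.mpr hq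
    rw [C_1] at hQ1'
    have hI1 : Q1 * (derivative σ - τ) + X * (Q1 + (X - 1) * derivative Q1)
        - X * E = 0 := by
      have h1 : (X - 1) * (Q1 * (derivative σ - τ) + X * (Q1 + (X - 1) * derivative Q1)
        - X * E) = 0 := by
        have e1 : derivative Q = Q1 + (X - 1) * derivative Q1 := by
          rw [hQ1', derivative_mul, derivative_sub, derivative_X, derivative_one, sub_zero,
            one_mul]
        rw [← hI, e1]
        linear_combination (-(derivative σ - τ)) * hQ1' + (Q1 + (X - 1) * derivative Q1 - E) * hσ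
      refine (mul_eq_zero.mp h1).resolve_left ?_
      intro h2
      exact one_sub_X_ne (by rw [← neg_sub, h2, neg_zero])
    have h1 := hstar (X * σ)
    have e0 : derivative (X * σ) = σ + X * derivative σ := by
      rw [derivative_mul, derivative_X]; ring
    have h4 := hJp (-(Q1 * σ))
    have h5 : Q * derivative (X * σ) + E * (X * σ)
        = σ * derivative (-(Q1 * σ)) + τ * (-(Q1 * σ)) := by
      have e1 : derivative (-(Q1 * σ)) = -(derivative Q1 * σ + Q1 * derivative σ) := by
        rw [derivative_neg, derivative_mul]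
      rw [e0, e1, hdσ, hQ1']
      rw [hdσ] at hI1
      linear_combination (-σ) * hI1 + (Q1 * (1 - 2 * X) + σ * derivative Q1) * hσ
    rw [h5, h4, e0] at h1
    simp only [eval_add, eval_mul, eval_X, evσ0, evσ1, evd0, evd1] at h1
    have h6 : M1 * K.eval 1 = 0 := by linarith
    rw [hK1, hq] at h6
    rcases mul_eq_zero.mp h6 with h7 | h7
    · exact h7
    · have : 0 < (β + 1) * (β + 2) := by nlinarith
      linarith
  rcases eq_or_ne M0 0 with hm0 | hm0
  · rcases eq_or_ne M1 0 with hm1 | hm1
    · refine Pool.Agent.TH858.J353.good_jacobi Φ c α β hc0 hα1 hβ1 fun f => ?_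
      rw [hdec, hm0, hm1, hJdef]
      ring
    · -- mass at one only
      have hβ0 : β = 0 := by
        rcases mul_eq_zero.mp hQ1 with h1 | h1
        · exact h1
        · exact absurd (hZ1 h1) hm1
      have hm1p : 0 < M1 := lt_of_le_of_ne hM1n (Ne.symm hm1)
      refine Good.of_cv (a := -1) (b := 1) (by norm_num) ?_
      refine Pool.Agent.TH858.J353.good_jacobi_type _ c α M1 hc0 hα1 hm1p fun f => ?_
      have e1 : cv Φ (-1) 1 f = Φ (aff (-1) 1 f) := by
        rw [cv_apply]; norm_num
      rw [e1, hdec, hm0, hJdef, aff_eval, aff_eval, hβ0]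
      have e2 : ∫ x in (0 : ℝ)..1, (aff (-1) 1 f).eval x * (x ^ α * (1 - x) ^ (0 : ℝ))
          = ∫ x in (0 : ℝ)..1, f.eval x * (1 - x) ^ α := by
        have h1 := intervalIntegral.integral_comp_sub_left
          (fun x : ℝ => f.eval x * (1 - x) ^ α) (1 : ℝ) (a := 0) (b := 1)
        simp only [sub_self, sub_zero] at h1
        rw [← h1]
        refine intervalIntegral.integral_congr fun x _ => ?_
        simp only [aff_eval, Real.rpow_zero, mul_one, sub_sub_cancel]
        congr 2
        ring
      rw [e2]
      norm_num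
  · have hm0p : 0 < M0 := lt_of_le_of_ne hM0n (Ne.symm hm0)
    have hα0 : α = 0 := by
      rcases mul_eq_zero.mp hQ0 with h1 | h1
      · exact h1
      · exact absurd (hZ0 h1) hm0
    rcases eq_or_ne M1 0 with hm1 | hm1
    · refine Pool.Agent.TH858.J353.good_jacobi_type Φ c β M0 hc0 hβ1 hm0p fun f => ?_
      rw [hdec, hm1, hJdef, hα0]
      simp only [Real.rpow_zero, one_mul]
      ring
    · have hm1p : 0 < M1 := lt_of_le_of_ne hM1n (Ne.symm hm1)
      have hβ0 : β = 0 := by
        rcases mul_eq_zero.mp hQ1 with h1 | h1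
        · exact h1
        · exact absurd (hZ1 h1) hm1
      have hτσ : τ = derivative σ := by
        rw [hτ, hdσ, hα0, hβ0]
        simp only [zero_add, C_1]
        ring
      have hEQ : E = derivative Q := by
        have h1 : σ * (E - derivative Q) = 0 := by
          rw [hτσ] at hI
          linear_combination hI
        exact sub_eq_zero.mp ((mul_eq_zero.mp h1).resolve_left hσne)
      have hFT : ∀ F : ℝ[X], J (derivative F) = (F.eval 1 - F.eval 0) * J 1 := by
        intro F
        obtain ⟨g, hg⟩ := decomp F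
        have h1 := hJp g
        rw [hτσ] at h1
        have h2 : derivative F = (F.eval 1 - F.eval 0) • (1 : ℝ[X])
            + (σ * derivative g + derivative σ * g) := by
          conv_lhs => rw [hg, ← hσ]
          simp only [derivative_add, derivative_mul, derivative_sub, derivative_C,
            derivative_one, derivative_X, smul_eq_C_mul, C_sub]
          ring
        rw [h2, map_add, h1, map_smul, smul_eq_mul, add_zero]
      have hst2 : ∀ f : ℝ[X], c * ((Q.eval 1 * f.eval 1 - Q.eval 0 * f.eval 0) * J 1)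
          + M0 * (K.eval 0 * (derivative f).eval 0 + E.eval 0 * f.eval 0)
          + M1 * (K.eval 1 * (derivative f).eval 1 + E.eval 1 * f.eval 1) = 0 := by
        intro f
        have h1 := hstar f
        have h2 : Q * derivative f + E * f = derivative (Q * f) := by
          rw [hEQ, derivative_mul]; ring
        rw [h2, hFT, eval_mul, eval_mul] at h1
        exact h1
      have ed1 : derivative ((1 - X) * σ) = -σ + (1 - X) * derivative σ := by
        rw [derivative_mul, derivative_sub, derivative_one, derivative_X]; ring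
      have ed2 : derivative (X * σ) = σ + X * derivative σ := by
        rw [derivative_mul, derivative_X]; ring
      have hK00 : K.eval 0 = 0 := by
        have h1 := hst2 ((1 - X) * σ)
        rw [ed1] at h1
        simp only [eval_add, eval_mul, eval_neg, eval_sub, eval_one, eval_X, evσ0, evσ1, evd0,
          evd1] at h1
        have h6 : M0 * K.eval 0 = 0 := by linarith
        exact (mul_eq_zero.mp h6).resolve_left hm0
      have hK10 : K.eval 1 = 0 := by
        have h1 := hst2 (X * σ)
        rw [ed2] at h1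
        simp only [eval_add, eval_mul, eval_X, evσ0, evσ1, evd0, evd1] at h1
        have h6 : M1 * K.eval 1 = 0 := by linarith
        exact (mul_eq_zero.mp h6).resolve_left hm1
      have hKd : (derivative K).eval 1 = -(derivative K).eval 0 := by
        have hs := K.as_sum_range' 3 (by have := h.dK; omega)
        simp only [Finset.sum_range_succ, Finset.sum_range_zero, zero_add,
          ← C_mul_X_pow_eq_monomial] at hs
        generalize K.coeff 0 = k0 at hs
        generalize K.coeff 1 = k1 at hs
        generalize K.coeff 2 = k2 at hs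
        rw [hs] at hK00 hK10 ⊢
        simp at hK00 hK10 ⊢
        linarith
      have hQ'0 : E.eval 0 = (derivative K).eval 0 + 12 := by
        have h1 : derivative Q = derivative K - (derivative τ * b + τ * derivative b)
            - derivative σ * C l := by
          rw [hQ, derivative_sub, derivative_sub, derivative_mul, derivative_mul, derivative_C]
          ring
        have h2 : derivative τ = -2 := by
          rw [hτσ, hdσ]
          simp only [derivative_sub, derivative_one, derivative_mul, derivative_ofNat,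
            derivative_X]
          ring
        rw [hEQ, h1, hdb, h2]
        simp only [eval_sub, eval_add, eval_mul, eval_neg, eval_ofNat, eval_C, evτ0, evb0,
          evd0, hβ, hα0, hβ0]
        ring
      have hQ'1 : E.eval 1 = (derivative K).eval 1 - 12 := by
        have h1 : derivative Q = derivative K - (derivative τ * b + τ * derivative b)
            - derivative σ * C l := by
          rw [hQ, derivative_sub, derivative_sub, derivative_mul, derivative_mul, derivative_C]
          ring
        have h2 : derivative τ = -2 := by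
          rw [hτσ, hdσ]
          simp only [derivative_sub, derivative_one, derivative_mul, derivative_ofNat,
            derivative_X]
          ring
        rw [hEQ, h1, hdb, h2]
        simp only [eval_sub, eval_add, eval_mul, eval_neg, eval_ofNat, eval_C, evτ1, evb1,
          evd1, hβ, hα0, hβ0]
        ring
      have hJ1p : 0 < J 1 := by
        have := hJpos 1 one_ne_zero
        simpa using this
      have eq1 : 2 * c * J 1 + M0 * E.eval 0 = 0 := by
        have h1 := hst2 ((1 - X) ^ 2 * (1 + 2 * X))
        have e1 : derivative ((1 - X) ^ 2 * (1 + 2 * X) : ℝ[X]) = (1 - X) * (-6 * X) := by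
          simp only [pow_two, derivative_mul, derivative_add, derivative_sub, derivative_one,
            derivative_X, derivative_ofNat]
          ring
        rw [e1] at h1
        simp only [eval_add, eval_mul, eval_neg, eval_sub, eval_one, eval_X, eval_pow,
          eval_ofNat] at h1
        rw [hK00, hα0] at hK0
        norm_num at h1 hK0
        have h2 : Q.eval 0 = -2 := by linarith
        rw [h2] at h1
        linarith
      have eq2 : -(2 * c * J 1) + M1 * E.eval 1 = 0 := by
        have h1 := hst2 (X ^ 2 * (3 - 2 * X))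
        have e1 : derivative (X ^ 2 * (3 - 2 * X) : ℝ[X]) = X * (6 * (1 - X)) := by
          simp only [pow_two, derivative_mul, derivative_sub, derivative_X, derivative_ofNat]
          ring
        rw [e1] at h1
        simp only [eval_mul, eval_sub, eval_one, eval_X, eval_pow, eval_ofNat] at h1
        rw [hK10, hβ0] at hK1
        norm_num at h1 hK1
        have h2 : Q.eval 1 = -2 := by linarith
        rw [h2] at h1
        linarith
      have hE01 : E.eval 1 = -E.eval 0 := by rw [hQ'0, hQ'1, hKd]; ring
      have hE0 : E.eval 0 ≠ 0 := by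
        intro h1
        rw [h1] at eq1
        have : 0 < 2 * c * J 1 := by positivity
        linarith
      have hMM : M1 = M0 := by
        rw [hE01] at eq2
        have h1 : (M1 - M0) * E.eval 0 = 0 := by linarith
        exact sub_eq_zero.mp ((mul_eq_zero.mp h1).resolve_right hE0)
      refine Pool.Agent.TH858.J353.good_legendre_type Φ c M0 hc0 hm0p fun f => ?_
      rw [hdec, hJdef, hα0, hβ0, hMM]
      simp only [Real.rpow_zero, mul_one]
      ring

/-- The regular case. -/
theorem Sys.regular (h : Sys Φ A B K E) (hd : B.degree < A.degree) : Good Φ := by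
  obtain ⟨a, b, ha, k, l, K', E', h1, h2, h3⟩ := h.norm hd
  exact Good.of_cv ha (jac_good h1 h2 h3)

end Pool.Agent.TH336.KR
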