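import Pool.Agent.TH336.KR.HL

/-!
# The case of two quadratic polynomials: Laguerre and Laguerre type
-/

set_option autoImplicit false
open MeasureTheory Polynomial Filter Topology

namespace Pool.Agent.TH336.KR

variable {Φ : ℝ[X] →ₗ[ℝ] ℝ} {A B K E : ℝ[X]}

/-- The second equation after adding the first one. -/
theorem second {a0 b1 b0 c1 c0 e1 e0 : ℝ}
    (h : Sys Φ (X ^ 2 + C a0) (-X ^ 2 + C b1 * X + C b0) (X ^ 2 + C c1 * X + C c0)
      (C e1 * X + C e0)) (f : ℝ[X]) :
    Φ ((C b1 * X + C (a0 + b0)) * derivative (derivative f)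
      + (C (b1 + c1) * X + C (b0 + c0)) * derivative f + (C e1 * X + C e0) * f) = 0 := by
  have h1 := h.m1 (derivative f)
  have h2 := h.m2 f
  have e : (C b1 * X + C (a0 + b0)) * derivative (derivative f)
      + (C (b1 + c1) * X + C (b0 + c0)) * derivative f + (C e1 * X + C e0) * f
      = ((X ^ 2 + C a0) * derivative (derivative f)
          + (-X ^ 2 + C b1 * X + C b0) * derivative f)
        + ((-X ^ 2 + C b1 * X + C b0) * derivative (derivative f)
          + (X ^ 2 + C c1 * X + C c0) * derivative f + (C e1 * X + C e0) * f) := by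
    simp only [C_add]
    ring
  rw [e, map_add, h1, h2, add_zero]

theorem lag_key {a0 b1 b0 c1 c0 e1 e0 : ℝ}
    (h : Sys Φ (X ^ 2 + C a0) (-X ^ 2 + C b1 * X + C b0) (X ^ 2 + C c1 * X + C c0)
      (C e1 * X + C e0)) : (a0 + b0) ^ 2 + a0 * b1 ^ 2 = 0 := by
  have hs : ∀ (r : ℝ) (f : ℝ[X]), Φ (C r * f) = r * Φ f := fun r f => by
    rw [← smul_eq_C_mul, map_smul, smul_eq_mul]
  have hm0 : Φ (X ^ 0) ≠ 0 := by
    have := h.pos 1 one_ne_zero
    rw [one_mul] at this
    rw [pow_zero]
    exact this.ne'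
  refine ode_key (fun n => Φ (X ^ n)) hm0 a0 b1 b0 (b1 + c1) e1 (a0 + b0) (b0 + c0) e0
    ?_ ?_ ?_ ?_ ?_
  · have h1 := h.m1 1
    have e : (X ^ 2 + C a0) * derivative 1 + (-X ^ 2 + C b1 * X + C b0) * 1
        = (C (-1) * X ^ 2 + C b1 * X ^ 1 + C b0 * X ^ 0 : ℝ[X]) := by
      rw [derivative_one, C_neg, C_1]; ring
    rw [e, map_add, map_add, hs, hs, hs] at h1
    linarith
  · intro k
    have h1 := h.m1 (X ^ (k + 1))
    have e : (X ^ 2 + C a0) * derivative (X ^ (k + 1))
        + (-X ^ 2 + C b1 * X + C b0) * X ^ (k + 1)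
        = (C ((k : ℝ) + 1) * X ^ (k + 2) + C (((k : ℝ) + 1) * a0) * X ^ k
          + C (-1) * X ^ (k + 3) + C b1 * X ^ (k + 2) + C b0 * X ^ (k + 1) : ℝ[X]) := by
      rw [dX, C_mul, C_neg, C_1]; ring
    rw [e, map_add, map_add, map_add, map_add, hs, hs, hs, hs, hs] at h1
    linarith
  · have h1 := second h 1
    have e : (C b1 * X + C (a0 + b0)) * derivative (derivative 1)
      + (C (b1 + c1) * X + C (b0 + c0)) * derivative 1 + (C e1 * X + C e0) * 1
      = (C e1 * X ^ 1 + C e0 * X ^ 0 : ℝ[X]) := by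
      rw [derivative_one, derivative_zero]; ring
    rw [e, map_add, hs, hs] at h1
    exact h1
  · have h1 := second h X
    have e : (C b1 * X + C (a0 + b0)) * derivative (derivative X)
      + (C (b1 + c1) * X + C (b0 + c0)) * derivative X + (C e1 * X + C e0) * X
      = (C (b1 + c1) * X ^ 1 + C (b0 + c0) * X ^ 0 + C e1 * X ^ 2 + C e0 * X ^ 1 : ℝ[X]) := by
      rw [derivative_X, derivative_one]; ring
    rw [e, map_add, map_add, map_add, hs, hs, hs, hs] at h1
    exact h1
  · intro k
    have h1 := second h (X ^ (k + 2))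
    have e : (C b1 * X + C (a0 + b0)) * derivative (derivative (X ^ (k + 2)))
      + (C (b1 + c1) * X + C (b0 + c0)) * derivative (X ^ (k + 2))
      + (C e1 * X + C e0) * X ^ (k + 2)
      = (C (((k : ℝ) + 2) * ((k : ℝ) + 1) * b1) * X ^ (k + 1)
        + C (((k : ℝ) + 2) * ((k : ℝ) + 1) * (a0 + b0)) * X ^ k
        + C (((k : ℝ) + 2) * (b1 + c1)) * X ^ (k + 2)
        + C (((k : ℝ) + 2) * (b0 + c0)) * X ^ (k + 1)
        + C e1 * X ^ (k + 3) + C e0 * X ^ (k + 2) : ℝ[X]) := by
      rw [dX (k + 1), derivative_C_mul, dX k]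
      push_cast
      simp only [C_mul, C_add, C_1, show (C (2 : ℝ) : ℝ[X]) = 2 from map_ofNat C 2]
      ring
    rw [e, map_add, map_add, map_add, map_add, map_add, hs, hs, hs, hs, hs, hs] at h1
    linarith

/-- The case `A = X²`, `B = -X² + b₁ X`. -/
theorem lag_zero {b1 c1 c0 e1 e0 : ℝ}
    (h : Sys Φ (X ^ 2 + C 0) (-X ^ 2 + C b1 * X + C 0) (X ^ 2 + C c1 * X + C c0)
      (C e1 * X + C e0)) : Good Φ := by
  have hs : ∀ (r : ℝ) (f : ℝ[X]), Φ (C r * f) = r * Φ f := fun r f => by
    rw [← smul_eq_C_mul, map_smul, smul_eq_mul]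
  obtain ⟨m, hm⟩ : ∃ m : ℕ → ℝ, ∀ n, m n = Φ (X ^ n) := ⟨fun n => Φ (X ^ n), fun n => rfl⟩
  have hm0 : 0 < m 0 := by
    have := h.pos 1 one_ne_zero
    rw [hm, pow_zero]
    simpa using this
  have hm2 : 0 < m 2 := by
    have := h.pos X X_ne_zero
    rw [hm, pow_two]
    exact this
  have hm4 : 0 < m 4 := by
    have := h.pos (X ^ 2) (pow_ne_zero 2 X_ne_zero)
    rw [hm]
    have e : (X ^ 4 : ℝ[X]) = X ^ 2 * X ^ 2 := by ring
    rw [e]
    exact this
  -- first equation
  have hrec : ∀ n : ℕ, m (n + 2) = ((n : ℝ) + b1) * m (n + 1) := by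
    intro n
    rcases n with _ | k
    · have h1 := h.m1 1
      have e : (X ^ 2 + C 0) * derivative 1 + (-X ^ 2 + C b1 * X + C 0) * 1
          = (C (-1) * X ^ 2 + C b1 * X ^ 1 : ℝ[X]) := by
        rw [derivative_one, C_neg, C_1, C_0]; ring
      rw [e, map_add, hs, hs, ← hm, ← hm] at h1
      push_cast
      linarith
    · have h1 := h.m1 (X ^ (k + 1))
      have e : (X ^ 2 + C 0) * derivative (X ^ (k + 1))
          + (-X ^ 2 + C b1 * X + C 0) * X ^ (k + 1)
          = (C ((k : ℝ) + 1 + b1) * X ^ (k + 2) + C (-1) * X ^ (k + 3) : ℝ[X]) := by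
        rw [dX, C_neg, C_1, C_0]
        simp only [C_add, C_1]
        ring
      rw [e, map_add, hs, hs, ← hm, ← hm] at h1
      push_cast
      rw [show k + 1 + 2 = k + 3 by ring, show k + 1 + 1 = k + 2 by ring]
      linarith
  -- second equation
  have g0 : e1 * m 1 + e0 * m 0 = 0 := by
    have h1 := second h 1
    have e : (C b1 * X + C (0 + 0)) * derivative (derivative 1)
      + (C (b1 + c1) * X + C (0 + c0)) * derivative 1 + (C e1 * X + C e0) * 1
      = (C e1 * X ^ 1 + C e0 * X ^ 0 : ℝ[X]) := by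
      rw [derivative_one, derivative_zero]; ring
    rw [e, map_add, hs, hs, ← hm, ← hm] at h1
    exact h1
  have g1 : (b1 + c1) * m 1 + c0 * m 0 + e1 * m 2 + e0 * m 1 = 0 := by
    have h1 := second h X
    have e : (C b1 * X + C (0 + 0)) * derivative (derivative X)
      + (C (b1 + c1) * X + C (0 + c0)) * derivative X + (C e1 * X + C e0) * X
      = (C (b1 + c1) * X ^ 1 + C c0 * X ^ 0 + C e1 * X ^ 2 + C e0 * X ^ 1 : ℝ[X]) := by
      rw [derivative_X, derivative_one, zero_add]; ring
    rw [e, map_add, map_add, map_add, hs, hs, hs, hs, ← hm, ← hm, ← hm] at h1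
    exact h1
  have g2 : ∀ k : ℕ, ((k : ℝ) + 2) * ((k : ℝ) + 1) * b1 * m (k + 1)
      + ((k : ℝ) + 2) * ((b1 + c1) * m (k + 2) + c0 * m (k + 1))
      + e1 * m (k + 3) + e0 * m (k + 2) = 0 := by
    intro k
    have h1 := second h (X ^ (k + 2))
    have e : (C b1 * X + C (0 + 0)) * derivative (derivative (X ^ (k + 2)))
      + (C (b1 + c1) * X + C (0 + c0)) * derivative (X ^ (k + 2))
      + (C e1 * X + C e0) * X ^ (k + 2)
      = (C (((k : ℝ) + 2) * ((k : ℝ) + 1) * b1) * X ^ (k + 1)
        + C (((k : ℝ) + 2) * (b1 + c1)) * X ^ (k + 2)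
        + C (((k : ℝ) + 2) * c0) * X ^ (k + 1)
        + C e1 * X ^ (k + 3) + C e0 * X ^ (k + 2) : ℝ[X]) := by
      rw [dX (k + 1), derivative_C_mul, dX k]
      push_cast
      simp only [C_mul, C_add, C_1, C_0, show (C (2 : ℝ) : ℝ[X]) = 2 from map_ofNat C 2]
      ring
    rw [e, map_add, map_add, map_add, map_add, hs, hs, hs, hs, hs, ← hm, ← hm, ← hm] at h1
    linarith
  -- parameters
  have r2 : m 2 = b1 * m 1 := by have := hrec 0; push_cast at this; rw [this]; ring
  have r3 : m 3 = (1 + b1) * m 2 := by have := hrec 1; push_cast at this; exact this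
  have r4 : m 4 = (2 + b1) * m 3 := by have := hrec 2; push_cast at this; exact this
  have r5 : m 5 = (3 + b1) * m 4 := by have := hrec 3; push_cast at this; exact this
  have hm1 : m 1 ≠ 0 := by
    intro h0; rw [h0, mul_zero] at r2; linarith
  have hb1 : b1 ≠ 0 := by
    intro h0; rw [h0, zero_mul] at r2; linarith
  have hm3 : m 3 ≠ 0 := by
    intro h0; rw [h0, mul_zero] at r4; linarith
  have p2 : 2 * b1 + 2 * ((b1 + c1) * b1 + c0) + e1 * ((1 + b1) * b1) + e0 * b1 = 0 := by
    have := g2 0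
    push_cast at this
    simp only [zero_add] at this
    rw [r3, r2] at this
    have h1 : (2 * b1 + 2 * ((b1 + c1) * b1 + c0) + e1 * ((1 + b1) * b1) + e0 * b1) * m 1 = 0 := by
      linear_combination this
    exact (mul_eq_zero.mp h1).resolve_right hm1
  have p3 : 6 * b1 + 3 * ((b1 + c1) * (1 + b1) + c0) + e1 * ((2 + b1) * (1 + b1))
      + e0 * (1 + b1) = 0 := by
    have := g2 1
    norm_num at this
    rw [r4, r3] at this
    have h1 : (6 * b1 + 3 * ((b1 + c1) * (1 + b1) + c0) + e1 * ((2 + b1) * (1 + b1))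
      + e0 * (1 + b1)) * m 2 = 0 := by
      linear_combination this
    exact (mul_eq_zero.mp h1).resolve_right hm2.ne'
  have p4 : 12 * b1 + 4 * ((b1 + c1) * (2 + b1) + c0) + e1 * ((3 + b1) * (2 + b1))
      + e0 * (2 + b1) = 0 := by
    have := g2 2
    norm_num at this
    rw [r5, r4] at this
    have h1 : (12 * b1 + 4 * ((b1 + c1) * (2 + b1) + c0) + e1 * ((3 + b1) * (2 + b1))
      + e0 * (2 + b1)) * m 3 = 0 := by
      linear_combination this
    exact (mul_eq_zero.mp h1).resolve_right hm3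
  have q0 : (b1 - 2) * (e1 * (b1 - 1) + e0) = 0 := by
    linear_combination 6 * p2 - 8 * p3 + 3 * p4
  have q2 : b1 + (b1 + c1) + e1 = 0 := by
    linear_combination (p4 - 2 * p3 + p2) / 2
  -- the Pearson equation once the first moment is right
  have hfin : m 1 = (b1 - 1) * m 0 → Good Φ := by
    intro hm1'
    refine hl_good (a1 := 1) (a0 := 0) (b1 := -1) (b0 := b1 - 1) h.pos (by norm_num) fun f => ?_
    induction f using Polynomial.induction_on' with
    | add p q hp hq =>
      rw [derivative_add]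
      have e : (C 1 * X + C 0) * (derivative p + derivative q)
          + (C (-1) * X + C (b1 - 1)) * (p + q)
          = ((C 1 * X + C 0) * derivative p + (C (-1) * X + C (b1 - 1)) * p)
          + ((C 1 * X + C 0) * derivative q + (C (-1) * X + C (b1 - 1)) * q) := by ring
      rw [e, map_add, hp, hq, add_zero]
    | monomial n r =>
      rw [← C_mul_X_pow_eq_monomial, derivative_C_mul]
      have e : (C 1 * X + C 0) * (C r * derivative (X ^ n))
          + (C (-1) * X + C (b1 - 1)) * (C r * X ^ n)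
          = C r * ((X * derivative (X ^ n)) + (C (b1 - 1) * X ^ n - X ^ (n + 1)) : ℝ[X]) := by
        rw [C_1, C_0, C_neg, C_1]; ring
      rw [e, hs, map_add, map_sub, hs]
      have e2 : Φ (X * derivative (X ^ n)) = n * Φ (X ^ n) := by
        rcases n with _ | k
        · simp
        · rw [dX]
          have : X * (C ((k : ℝ) + 1) * X ^ k) = (C ((k : ℝ) + 1) * X ^ (k + 1) : ℝ[X]) := by ring
          rw [this, hs]
          push_cast
          ring
      rw [e2, ← hm, ← hm]
      rcases n with _ | k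
      · rw [zero_add, hm1']; push_cast; ring
      · rw [show k + 1 + 1 = k + 2 by ring, hrec k]; push_cast; ring
  rcases eq_or_ne b1 2 with hb2 | hb2
  · -- `b₁ = 2`
    have hfac : ∀ n : ℕ, 0 < n → m n = m 1 * (n.factorial : ℝ) := by
      intro n hn
      induction n with
      | zero => omega
      | succ k ih =>
        rcases Nat.eq_zero_or_pos k with hk | hk
        · rw [hk]; simp
        · have h1 := ih hk
          obtain ⟨j, rfl⟩ : ∃ j, k = j + 1 := ⟨k - 1, by omega⟩
          rw [show j + 1 + 1 = j + 2 by ring, hrec j, h1, hb2, Nat.factorial_succ (j + 1)]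
          push_cast
          ring
    have hm1p : 0 < m 1 := by
      rw [hb2] at r2
      linarith
    set c : ℝ := m 0 - m 1 with hc
    have hc0 : 0 ≤ c := by
      by_contra hneg
      push Not at hneg
      obtain ⟨N, hN⟩ := exists_nat_gt (m 1 / -c)
      obtain ⟨f, hf0, hf⟩ := Pool.Agent.TH830.J356.lag_test N
      set G : ℝ[X] →ₗ[ℝ] ℝ := (m 1)⁻¹ • (Φ - c • Polynomial.lcoeff ℝ 0) with hG
      have hGm : ∀ n : ℕ, G (X ^ n) = (n.factorial : ℝ) := by
        intro n
        rw [hG]
        simp only [LinearMap.smul_apply, LinearMap.sub_apply, lcoeff_apply, smul_eq_mul]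
        rw [← hm]
        rcases Nat.eq_zero_or_pos n with hn | hn
        · rw [hn, hc]; simp; field_simp
        · rw [hfac n hn, coeff_X_pow, if_neg (by omega)]
          field_simp
          ring
      have h1 := hf G hGm
      have h2 : Φ (f * f) = m 1 * (1 / ((N : ℝ) + 1)) + c := by
        rw [hG] at h1
        simp only [LinearMap.smul_apply, LinearMap.sub_apply, lcoeff_apply, smul_eq_mul,
          coeff_zero_eq_eval_zero, eval_mul, hf0] at h1
        field_simp at h1 ⊢
        linarith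
      have hfne : f ≠ 0 := by
        rintro rfl
        simp at hf0
      have h3 := h.pos f hfne
      rw [h2] at h3
      have hN1 : (0 : ℝ) < (N : ℝ) + 1 := by positivity
      have h4 : m 1 * (1 / ((N : ℝ) + 1)) < -c := by
        rw [mul_one_div, div_lt_iff₀ hN1]
        rw [div_lt_iff₀ (by linarith)] at hN
        nlinarith
      linarith
    rcases hc0.eq_or_lt with hc1 | hc1
    · apply hfin
      rw [hb2]
      linarith
    · refine Pool.Agent.TH830.J352.good_laguerre_type Φ (m 1) c hm1p hc1 ?_ fun n hn => ?_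
      · rw [← pow_zero X, ← hm, hc]; ring
      · rw [← hm]; exact hfac n hn
  · apply hfin
    have he0 : e1 * (b1 - 1) + e0 = 0 :=
      (mul_eq_zero.mp q0).resolve_left (sub_ne_zero.mpr hb2)
    rcases eq_or_ne e1 0 with h1 | h1
    · have h2 : e0 = 0 := by rw [h1] at he0; linarith
      have h3 : b1 + c1 = -b1 := by linarith
      have h4 : c0 = b1 * (b1 - 1) := by
        rw [h3, h1, h2] at p2
        linarith
      rw [h3, h4, h1, h2] at g1
      have h5 : b1 * (m 1 - (b1 - 1) * m 0) = 0 := by linarith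
      have := (mul_eq_zero.mp h5).resolve_left hb1
      linarith
    · have h2 : e0 = -(e1 * (b1 - 1)) := by linarith
      rw [h2] at g0
      have h5 : e1 * (m 1 - (b1 - 1) * m 0) = 0 := by linarith
      have := (mul_eq_zero.mp h5).resolve_left h1
      linarith

theorem lag_good {a0 b1 b0 c1 c0 e1 e0 : ℝ}
    (h : Sys Φ (X ^ 2 + C a0) (-X ^ 2 + C b1 * X + C b0) (X ^ 2 + C c1 * X + C c0)
      (C e1 * X + C e0)) : Good Φ := by
  have hk := lag_key h
  rcases eq_or_ne b1 0 with hb1 | hb1
  · -- `B = -A`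
    have hq : a0 + b0 = 0 := by
      rw [hb1] at hk
      have : (a0 + b0) ^ 2 = 0 := by linarith
      exact pow_eq_zero_iff (two_ne_zero) |>.mp this
    by_cases hne : b1 + c1 = 0 ∧ b0 + c0 = 0 ∧ e1 = 0 ∧ e0 = 0
    · exfalso
      obtain ⟨h1, h2, h3, h4⟩ := hne
      have hb0 : b0 = -a0 := by linarith
      have hc0 : c0 = a0 := by linarith
      have hc1 : c1 = 0 := by linarith
      have h5 := h.eig (X ^ 2 + C a0) dvd_rfl ?_ ?_ ?_
      · rw [natDegree_X_pow_add_C] at h5
        omega
      · rw [hb1, hb0]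
        refine ⟨-1, ?_⟩
        rw [C_neg, C_0]; ring
      · rw [hc1, hc0]
        refine ⟨1, ?_⟩
        rw [C_0]; ring
      · rw [h3, h4]
        refine ⟨0, ?_⟩
        rw [C_0]; ring
    · refine hl_good h.pos hne fun f => ?_
      have h1 := second h f
      rw [hb1, hq, C_0, zero_mul, zero_add, zero_mul, zero_add] at h1
      rw [hb1]
      exact h1
  · -- a common zero
    obtain ⟨r, hr⟩ : ∃ r : ℝ, a0 + b0 = -(b1 * r) := ⟨-((a0 + b0) / b1), by field_simp⟩
    have ha0 : a0 = -r ^ 2 := by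
      rw [hr] at hk
      have h1 : b1 ^ 2 * (r ^ 2 + a0) = 0 := by linarith
      have := (mul_eq_zero.mp h1).resolve_left (pow_ne_zero 2 hb1)
      linarith
    have eA : (X ^ 2 + C a0).eval r = 0 := by
      simp only [eval_add, eval_pow, eval_X, eval_C, ha0]; ring
    have eB : (-X ^ 2 + C b1 * X + C b0).eval r = 0 := by
      simp only [eval_add, eval_neg, eval_mul, eval_pow, eval_X, eval_C]
      linarith
    have hd := h.double eA eB
    have hr0 : r = 0 := by
      simp at hd
      exact hd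
    have ha00 : a0 = 0 := by rw [ha0, hr0]; ring
    have hb00 : b0 = 0 := by rw [ha00, hr0] at hr; linarith
    rw [ha00, hb00] at h
    exact lag_zero h

end Pool.Agent.TH336.KR
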