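import Pool.Agent.TH336.KR.Aff

/-!
# Positivity lemmas for functionals
-/

set_option autoImplicit false
open MeasureTheory Polynomial Filter Topology

namespace Pool.Agent.TH336.KR

variable {Φ : ℝ[X] →ₗ[ℝ] ℝ} {A B K E : ℝ[X]}

/-- Cauchy–Schwarz for `f, g ↦ Φ (P f g)`. -/
theorem cs {P : ℝ[X]} (h : ∀ f : ℝ[X], 0 ≤ Φ (P * (f * f))) (u v : ℝ[X]) :
    Φ (P * (u * v)) ^ 2 ≤ Φ (P * (u * u)) * Φ (P * (v * v)) := by
  have h1 : ∀ t : ℝ, 0 ≤ Φ (P * (v * v)) * (t * t) + (-2 * Φ (P * (u * v))) * t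
      + Φ (P * (u * u)) := by
    intro t
    have h2 := h (u - C t * v)
    have h3 : P * ((u - C t * v) * (u - C t * v)) = (t * t) • (P * (v * v))
        + (-2 * t) • (P * (u * v)) + P * (u * u) := by
      simp only [smul_eq_C_mul, C_mul, C_neg]
      have : (C (2 : ℝ) : ℝ[X]) = 2 := map_ofNat C 2
      rw [this]
      ring
    rw [h3, map_add, map_add, map_smul, map_smul, smul_eq_mul, smul_eq_mul] at h2
    linarith
  have h4 := discrim_le_zero h1
  rw [discrim] at h4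
  nlinarith

theorem pos_of_nonneg (pos : ∀ f : ℝ[X], f ≠ 0 → 0 < Φ (f * f)) {P : ℝ[X]} (hP : P ≠ 0)
    (h : ∀ f : ℝ[X], 0 ≤ Φ (P * (f * f))) {f : ℝ[X]} (hf : f ≠ 0) : 0 < Φ (P * (f * f)) := by
  rcases (h f).lt_or_eq with h1 | h1
  · exact h1
  · exfalso
    have h2 : ∀ g : ℝ[X], Φ (P * f * g) = 0 := by
      intro g
      have h3 := cs h f g
      rw [← h1, zero_mul] at h3
      rw [mul_assoc]
      exact pow_eq_zero_iff (two_ne_zero) |>.mp (le_antisymm h3 (sq_nonneg _))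
    exact mul_ne_zero hP hf (ext0 pos h2)

/-- Geometric growth bounds the functional. -/
theorem sq_bound (pos : ∀ f : ℝ[X], f ≠ 0 → 0 < Φ (f * f)) {Kc R : ℝ} (hR : 0 < R)
    (hK : ∀ n : ℕ, |Φ (X ^ n)| ≤ Kc * R ^ n) (f : ℝ[X]) :
    Φ (X ^ 2 * (f * f)) ≤ R ^ 2 * Φ (f * f) := by
  by_cases hf : f = 0
  · simp [hf]
  have hnn : ∀ g : ℝ[X], 0 ≤ Φ (1 * (g * g)) := by
    intro g
    rw [one_mul]
    by_cases hg : g = 0
    · simp [hg]
    · exact (pos g hg).le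
  set s : ℕ → ℝ := fun k => Φ (X ^ (2 * k) * (f * f)) with hs
  have hspos : ∀ k, 0 < s k := by
    intro k
    have h1 : X ^ (2 * k) * (f * f) = (X ^ k * f) * (X ^ k * f) := by ring
    simp only [hs]
    rw [h1]
    exact pos _ (mul_ne_zero (pow_ne_zero k X_ne_zero) hf)
  have hlc : ∀ k, s (k + 1) ^ 2 ≤ s k * s (k + 2) := by
    intro k
    have h1 := cs hnn (X ^ k * f) (X ^ (k + 2) * f)
    have e1 : (1 : ℝ[X]) * (X ^ k * f * (X ^ (k + 2) * f)) = X ^ (2 * (k + 1)) * (f * f) := by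
      ring
    have e2 : (1 : ℝ[X]) * (X ^ k * f * (X ^ k * f)) = X ^ (2 * k) * (f * f) := by ring
    have e3 : (1 : ℝ[X]) * (X ^ (k + 2) * f * (X ^ (k + 2) * f))
        = X ^ (2 * (k + 2)) * (f * f) := by ring
    rw [e1, e2, e3] at h1
    exact h1
  -- growth of `s`
  obtain ⟨L, hL0, hL⟩ : ∃ L : ℝ, 0 ≤ L ∧ ∀ g : ℝ[X], g = f * f → ∀ k, Φ (X ^ (2 * k) * g)
      ≤ L * (R ^ 2) ^ k := by
    have hKc : 0 ≤ Kc := by
      have := hK 0
      simp only [pow_zero, mul_one] at this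
      exact (abs_nonneg _).trans this
    refine ⟨∑ i ∈ Finset.range ((f * f).natDegree + 1), |(f * f).coeff i| * (Kc * R ^ i),
      Finset.sum_nonneg fun i _ => by positivity, ?_⟩
    rintro g hg k
    have h1 : X ^ (2 * k) * g = ∑ i ∈ Finset.range ((f * f).natDegree + 1),
        (f * f).coeff i • (X ^ (2 * k + i) : ℝ[X]) := by
      rw [hg]
      nth_rewrite 1 [(f * f).as_sum_range_C_mul_X_pow]
      rw [Finset.mul_sum]
      refine Finset.sum_congr rfl fun i _ => ?_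
      rw [smul_eq_C_mul, pow_add]
      ring
    rw [h1, map_sum, Finset.sum_mul]
    refine Finset.sum_le_sum fun i _ => ?_
    rw [map_smul, smul_eq_mul]
    calc (f * f).coeff i * Φ (X ^ (2 * k + i)) ≤ |(f * f).coeff i| * |Φ (X ^ (2 * k + i))| := by
          rw [← abs_mul]; exact le_abs_self _
      _ ≤ |(f * f).coeff i| * (Kc * R ^ (2 * k + i)) :=
          mul_le_mul_of_nonneg_left (hK _) (abs_nonneg _)
      _ = |(f * f).coeff i| * (Kc * R ^ i) * (R ^ 2) ^ k := by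
          rw [pow_add, pow_mul]; ring
  have hs0 : Φ (f * f) = s 0 := by simp [hs]
  have hs1 : Φ (X ^ 2 * (f * f)) = s 1 := by simp [hs]
  rw [hs0, hs1]
  by_contra hlt
  push Not at hlt
  set q : ℝ := s 1 / s 0 with hq
  have hqR : R ^ 2 < q := by
    rw [hq, lt_div_iff₀ (hspos 0)]; exact hlt
  have hratio : ∀ k, q * s k ≤ s (k + 1) := by
    intro k
    induction k with
    | zero => rw [hq, div_mul_cancel₀ _ (hspos 0).ne']
    | succ k ih =>
      have h1 := hlc k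
      have h2 : s (k + 1) * (q * s k) ≤ s k * s (k + 2) := by
        refine le_trans ?_ h1
        rw [sq]
        exact mul_le_mul_of_nonneg_left ih (hspos _).le
      have h3 : s k * (q * s (k + 1)) ≤ s k * s (k + 2) := by linarith
      exact le_of_mul_le_mul_left h3 (hspos k)
  have hgrow : ∀ k, s 0 * q ^ k ≤ s k := by
    intro k
    induction k with
    | zero => simp
    | succ k ih =>
      calc s 0 * q ^ (k + 1) = q * (s 0 * q ^ k) := by ring
        _ ≤ q * s k := mul_le_mul_of_nonneg_left ih ((sq_nonneg R).trans hqR.le)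
        _ ≤ s (k + 1) := hratio k
  have hR2 : (0 : ℝ) < R ^ 2 := by positivity
  have h5 : ∀ k : ℕ, (q / R ^ 2) ^ k ≤ L / s 0 := by
    intro k
    rw [div_pow, div_le_div_iff₀ (by positivity) (hspos 0)]
    have := (hgrow k).trans (hL _ rfl k)
    linarith
  have h6 : 1 < q / R ^ 2 := by rw [one_lt_div hR2]; exact hqR
  obtain ⟨k, hk⟩ := pow_unbounded_of_one_lt (L / s 0) h6
  exact absurd (h5 k) (not_le.mpr hk)

theorem abs_bound (pos : ∀ f : ℝ[X], f ≠ 0 → 0 < Φ (f * f)) {Kc R : ℝ} (hR : 0 < R)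
    (hK : ∀ n : ℕ, |Φ (X ^ n)| ≤ Kc * R ^ n) (f : ℝ[X]) :
    |Φ (X * (f * f))| ≤ R * Φ (f * f) := by
  have hnn : ∀ g : ℝ[X], 0 ≤ Φ (1 * (g * g)) := by
    intro g
    rw [one_mul]
    by_cases hg : g = 0
    · simp [hg]
    · exact (pos g hg).le
  have h1 := sq_bound pos hR hK f
  have h2 := cs hnn f (X * f)
  have e1 : (1 : ℝ[X]) * (f * (X * f)) = X * (f * f) := by ring
  have e2 : (1 : ℝ[X]) * (X * f * (X * f)) = X ^ 2 * (f * f) := by ring
  rw [e1, e2, one_mul] at h2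
  have h3 : 0 ≤ Φ (f * f) := by simpa using hnn f
  apply abs_le_of_sq_le_sq _ (by positivity)
  calc Φ (X * (f * f)) ^ 2 ≤ Φ (f * f) * Φ (X ^ 2 * (f * f)) := h2
    _ ≤ Φ (f * f) * (R ^ 2 * Φ (f * f)) := mul_le_mul_of_nonneg_left h1 h3
    _ = (R * Φ (f * f)) ^ 2 := by ring

theorem bound_up (pos : ∀ f : ℝ[X], f ≠ 0 → 0 < Φ (f * f)) {Kc R : ℝ} (hR : 0 < R)
    (hK : ∀ n : ℕ, |Φ (X ^ n)| ≤ Kc * R ^ n) (f : ℝ[X]) :
    0 ≤ Φ ((C R - X) * (f * f)) := by
  have h1 := (abs_le.mp (abs_bound pos hR hK f)).2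
  have e1 : (C R - X) * (f * f) = R • (f * f) - X * (f * f) := by
    rw [smul_eq_C_mul]; ring
  rw [e1, map_sub, map_smul, smul_eq_mul]
  linarith

theorem bound_dn (pos : ∀ f : ℝ[X], f ≠ 0 → 0 < Φ (f * f)) {Kc R : ℝ} (hR : 0 < R)
    (hK : ∀ n : ℕ, |Φ (X ^ n)| ≤ Kc * R ^ n) (f : ℝ[X]) :
    0 ≤ Φ ((X + C R) * (f * f)) := by
  have h1 := (abs_le.mp (abs_bound pos hR hK f)).1
  have e1 : (X + C R) * (f * f) = R • (f * f) + X * (f * f) := by
    rw [smul_eq_C_mul]; ring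
  rw [e1, map_add, map_smul, smul_eq_mul]
  linarith

end Pool.Agent.TH336.KR
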