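import Pool.Agent.TH336.KR.Defs

/-!
# Basic consequences of the functional equations
-/

set_option autoImplicit false
open MeasureTheory Polynomial

namespace Pool.Agent.TH336.KR

variable {Φ : ℝ[X] →ₗ[ℝ] ℝ} {A B K E : ℝ[X]}

theorem ext0 (pos : ∀ f : ℝ[X], f ≠ 0 → 0 < Φ (f * f)) {P : ℝ[X]}
    (h : ∀ f : ℝ[X], Φ (P * f) = 0) : P = 0 := by
  by_contra hP
  have := pos P hP
  rw [h P] at this
  exact lt_irrefl _ this

/-- The polynomial `H`. -/
noncomputable def HH (A B K : ℝ[X]) : ℝ[X] :=
  A * (derivative B - K) + B * (B - derivative A)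

/-- The basic polynomial identity. -/
theorem Sys.star (h : Sys Φ A B K E) :
    A * derivative (HH A B K) + HH A B K * (B - 2 * derivative A) + A ^ 2 * E = 0 := by
  apply ext0 h.pos
  intro g
  set W : ℝ[X] := -B ^ 2 - derivative B * A + 3 * derivative A * B + K * A with hW
  have h1 := h.m2 (A ^ 2 * g)
  have h2 := h.m1 (B * A * derivative g)
  have h3 := h.m1 (W * g)
  have h4 : (A * derivative (HH A B K) + HH A B K * (B - 2 * derivative A) + A ^ 2 * E) * g
      = (B * derivative (derivative (A ^ 2 * g)) + K * derivative (A ^ 2 * g) + E * (A ^ 2 * g))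
        - (A * derivative (B * A * derivative g) + B * (B * A * derivative g))
        - (A * derivative (W * g) + B * (W * g)) := by
    simp only [hW, HH, pow_two, derivative_add, derivative_sub, derivative_mul, derivative_neg,
      derivative_ofNat]
    ring
  rw [h4, map_sub, map_sub, h1, h2, h3]
  ring

end Pool.Agent.TH336.KR
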