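import Pool.Agent.TH336.KR.Pos

/-!
# The top of the support is a common zero of `A` and `B`
-/

set_option autoImplicit false
open MeasureTheory Polynomial Filter Topology

namespace Pool.Agent.TH336.KR

variable {Φ : ℝ[X] →ₗ[ℝ] ℝ} {A B K E : ℝ[X]}

theorem dX (n : ℕ) : derivative (X ^ (n + 1) : ℝ[X]) = C ((n : ℝ) + 1) * X ^ n := by
  rw [derivative_X_pow]
  simp

theorem ratio_limit (pos : ∀ f : ℝ[X], f ≠ 0 → 0 < Φ (f * f))
    (hX : ∀ f : ℝ[X], 0 ≤ Φ (X * (f * f))) {T : ℝ} (hT : 0 < T)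
    (hTX : ∀ f : ℝ[X], 0 ≤ Φ ((C T - X) * (f * f))) :
    (∀ n, 0 < Φ (X ^ n)) ∧ ∃ l : ℝ, 0 < l ∧
      (∀ n, Φ (X ^ (n + 1)) ≤ l * Φ (X ^ n)) ∧
      Tendsto (fun n : ℕ => Φ (X ^ (n + 1)) / Φ (X ^ n)) atTop (𝓝 l) := by
  have hnn : ∀ g : ℝ[X], 0 ≤ Φ (1 * (g * g)) := by
    intro g
    rw [one_mul]
    by_cases hg : g = 0
    · simp [hg]
    · exact (pos g hg).le
  have hXX : ∀ k : ℕ, (X ^ k : ℝ[X]) ≠ 0 := fun k => pow_ne_zero k X_ne_zero
  have h0 : ∀ n, 0 < Φ (X ^ n) := by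
    intro n
    rcases Nat.even_or_odd' n with ⟨k, rfl | rfl⟩
    · have h1 : (X ^ (2 * k) : ℝ[X]) = X ^ k * X ^ k := by ring
      rw [h1]
      exact pos _ (hXX k)
    · have h1 : (X ^ (2 * k + 1) : ℝ[X]) = X * (X ^ k * X ^ k) := by ring
      rw [h1]
      exact pos_of_nonneg pos X_ne_zero hX (hXX k)
  have hlc : ∀ n, Φ (X ^ (n + 1)) ^ 2 ≤ Φ (X ^ n) * Φ (X ^ (n + 2)) := by
    intro n
    rcases Nat.even_or_odd' n with ⟨k, rfl | rfl⟩
    · have h1 := cs hnn (X ^ k) (X ^ (k + 1))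
      have e1 : (1 : ℝ[X]) * (X ^ k * X ^ (k + 1)) = X ^ (2 * k + 1) := by ring
      have e2 : (1 : ℝ[X]) * (X ^ k * X ^ k) = X ^ (2 * k) := by ring
      have e3 : (1 : ℝ[X]) * (X ^ (k + 1) * X ^ (k + 1)) = X ^ (2 * k + 2) := by ring
      rw [e1, e2, e3] at h1
      exact h1
    · have h1 := cs hX (X ^ k) (X ^ (k + 1))
      have e1 : X * (X ^ k * X ^ (k + 1)) = (X ^ (2 * k + 1 + 1) : ℝ[X]) := by ring
      have e2 : X * (X ^ k * X ^ k) = (X ^ (2 * k + 1) : ℝ[X]) := by ring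
      have e3 : X * (X ^ (k + 1) * X ^ (k + 1)) = (X ^ (2 * k + 1 + 2) : ℝ[X]) := by ring
      rw [e1, e2, e3] at h1
      exact h1
  have hup : ∀ n, Φ (X ^ (n + 1)) ≤ T * Φ (X ^ n) := by
    intro n
    rcases Nat.even_or_odd' n with ⟨k, rfl | rfl⟩
    · have h1 := hTX (X ^ k)
      have e1 : (C T - X) * (X ^ k * X ^ k) = T • (X ^ (2 * k)) - X ^ (2 * k + 1) := by
        rw [smul_eq_C_mul]; ring
      rw [e1, map_sub, map_smul, smul_eq_mul] at h1
      linarith
    · have h1 := hTX (X * X ^ k)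
      have h2 := hX ((C T - X) * X ^ k)
      have e1 : T • (T • (X ^ (2 * k + 1)) - (X ^ (2 * k + 1 + 1) : ℝ[X]))
          = (C T - X) * (X * X ^ k * (X * X ^ k))
            + X * ((C T - X) * X ^ k * ((C T - X) * X ^ k)) := by
        simp only [smul_eq_C_mul]; ring
      have h3 : 0 ≤ Φ (T • (T • (X ^ (2 * k + 1)) - (X ^ (2 * k + 1 + 1) : ℝ[X]))) := by
        rw [e1, map_add]
        exact add_nonneg h1 h2
      rw [map_smul, map_sub, map_smul, smul_eq_mul, smul_eq_mul] at h3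
      have h4 := nonneg_of_mul_nonneg_right h3 hT
      linarith
  refine ⟨h0, ?_⟩
  set r : ℕ → ℝ := fun n => Φ (X ^ (n + 1)) / Φ (X ^ n) with hr
  have hmono : Monotone r := by
    refine monotone_nat_of_le_succ fun n => ?_
    simp only [hr]
    rw [div_le_div_iff₀ (h0 _) (h0 _)]
    have := hlc n
    rw [sq] at this
    linarith
  have hbdd : BddAbove (Set.range r) := by
    refine ⟨T, ?_⟩
    rintro _ ⟨n, rfl⟩
    simp only [hr]
    rw [div_le_iff₀ (h0 _)]
    exact hup n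
  have hlim := tendsto_atTop_ciSup hmono hbdd
  refine ⟨⨆ n, r n, ?_, ?_, hlim⟩
  · exact lt_of_lt_of_le (div_pos (h0 _) (h0 _)) (le_ciSup hbdd 0)
  · intro n
    have h1 := le_ciSup hbdd n
    simp only [hr] at h1
    rwa [div_le_iff₀ (h0 _)] at h1

theorem poly_limit (h0 : ∀ n, 0 < Φ (X ^ n)) {l : ℝ}
    (hl : Tendsto (fun n : ℕ => Φ (X ^ (n + 1)) / Φ (X ^ n)) atTop (𝓝 l)) (P : ℝ[X]) :
    Tendsto (fun n : ℕ => Φ (P * X ^ n) / Φ (X ^ n)) atTop (𝓝 (P.eval l)) := by
  have hk : ∀ k : ℕ, Tendsto (fun n : ℕ => Φ (X ^ (n + k)) / Φ (X ^ n)) atTop (𝓝 (l ^ k)) := by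
    intro k
    induction k with
    | zero =>
      simp only [add_zero, pow_zero]
      refine tendsto_const_nhds.congr fun n => ?_
      rw [div_self (h0 n).ne']
    | succ k ih =>
      have h1 := (hl.comp (tendsto_add_atTop_nat k)).mul ih
      rw [pow_succ']
      refine h1.congr fun n => ?_
      simp only [Function.comp]
      have h2 := (h0 n).ne'
      have h3 := (h0 (n + k)).ne'
      rw [← add_assoc]
      field_simp
  induction P using Polynomial.induction_on' with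
  | add p q hp hq =>
    rw [eval_add]
    refine (hp.add hq).congr fun n => ?_
    rw [add_mul, map_add, add_div]
  | monomial k a =>
    rw [eval_monomial]
    refine ((hk k).const_mul a).congr fun n => ?_
    have : (monomial k a : ℝ[X]) * X ^ n = a • X ^ (n + k) := by
      rw [← C_mul_X_pow_eq_monomial, smul_eq_C_mul]; ring
    rw [this, map_smul, smul_eq_mul]
    ring

theorem Sys.top_zero (h : Sys Φ A B K E) (h0 : ∀ n, 0 < Φ (X ^ n)) {l : ℝ}
    (hl : Tendsto (fun n : ℕ => Φ (X ^ (n + 1)) / Φ (X ^ n)) atTop (𝓝 l)) :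
    A.eval l = 0 ∧ B.eval l = 0 := by
  have hinv : Tendsto (fun n : ℕ => ((n : ℝ) + 1)⁻¹) atTop (𝓝 0) := by
    have := tendsto_one_div_add_atTop_nhds_zero_nat (𝕜 := ℝ)
    refine this.congr fun n => by rw [one_div]
  have hinv2 : Tendsto (fun n : ℕ => ((n : ℝ) + 2)⁻¹) atTop (𝓝 0) := by
    refine (hinv.comp (tendsto_add_atTop_nat 1)).congr fun n => ?_
    simp only [Function.comp]
    push_cast
    ring_nf
  constructor
  · have h1 := poly_limit h0 hl A
    have h2 := poly_limit h0 hl (B * X)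
    have h3 := (h2.mul hinv).neg
    rw [mul_zero, neg_zero] at h3
    refine tendsto_nhds_unique h1 (h3.congr fun n => ?_)
    have h4 := h.m1 (X ^ (n + 1))
    have h5 : A * derivative (X ^ (n + 1)) + B * X ^ (n + 1)
        = ((n : ℝ) + 1) • (A * X ^ n) + B * X * X ^ n := by
      rw [derivative_X_pow, smul_eq_C_mul]
      simp only [Nat.cast_add, Nat.cast_one, C_add, C_1, map_natCast, Nat.add_sub_cancel]
      ring
    rw [h5, map_add, map_smul, smul_eq_mul] at h4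
    have h6 := (h0 n).ne'
    have h7 : (n : ℝ) + 1 ≠ 0 := by positivity
    field_simp
    linarith
  · have h1 := poly_limit h0 hl B
    have h2 := poly_limit h0 hl (K * X)
    have h3 := poly_limit h0 hl (E * X ^ 2)
    have h4 := ((h2.mul hinv).add ((h3.mul hinv).mul hinv2)).neg
    simp only [mul_zero, add_zero, neg_zero] at h4
    refine tendsto_nhds_unique h1 (h4.congr fun n => ?_)
    have h5 := h.m2 (X ^ (n + 2))
    have h6 : B * derivative (derivative (X ^ (n + 2))) + K * derivative (X ^ (n + 2))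
        + E * X ^ (n + 2)
        = (((n : ℝ) + 2) * ((n : ℝ) + 1)) • (B * X ^ n) + ((n : ℝ) + 2) • (K * X * X ^ n)
          + E * X ^ 2 * X ^ n := by
      rw [dX (n + 1), derivative_C_mul, dX n, smul_eq_C_mul, smul_eq_C_mul, C_mul]
      push_cast
      simp only [C_add, C_1, show (C (2 : ℝ) : ℝ[X]) = 2 from map_ofNat C 2]
      ring
    rw [h6, map_add, map_add, map_smul, map_smul, smul_eq_mul, smul_eq_mul] at h5
    have h7 := (h0 n).ne'
    have h8 : (n : ℝ) + 1 ≠ 0 := by positivity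
    have h9 : (n : ℝ) + 2 ≠ 0 := by positivity
    field_simp
    linarith

end Pool.Agent.TH336.KR
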